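import Mathlib

/-!
# Artin-Rees with bounds

Let `A` be a matrix over `P = ℂ[y_1, …, y_n]`. If `A g` vanishes to the order `m + c`, then
`A g = A r` for some `r` which vanishes to the order `m`, and `r` can be bounded by `g`.
-/

open MvPolynomial

namespace Pool.Agent.Odp3

theorem artinRees_lift {R M N : Type*} [CommRing R] [IsNoetherianRing R] [AddCommGroup M]
    [Module R M] [AddCommGroup N] [Module R N] [Module.Finite R N] (I : Ideal R)
    (A : M →ₗ[R] N) : ∃ c : ℕ, ∀ (m : ℕ) (g : M), A g ∈ (I ^ (m + c) • ⊤ : Submodule R N) →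
      ∃ r ∈ (I ^ m • ⊤ : Submodule R M), A r = A g := by
  obtain ⟨k, hk⟩ := Ideal.exists_pow_inf_eq_pow_smul I (LinearMap.range A)
  refine ⟨k, fun m g hg => ?_⟩
  have h1 : A g ∈ (I ^ (m + k) • ⊤ ⊓ LinearMap.range A : Submodule R N) := ⟨hg, ⟨g, rfl⟩⟩
  rw [hk (m + k) (Nat.le_add_left k m), Nat.add_sub_cancel] at h1
  have h2 : A g ∈ Submodule.map A (I ^ m • ⊤) := by
    rw [Submodule.map_smul'', Submodule.map_top]
    exact Submodule.smul_mono le_rfl inf_le_right h1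
  obtain ⟨r, hr, hrg⟩ := h2
  exact ⟨r, hr, hrg⟩

theorem mem_smul_top_pi_iff {R : Type*} [CommRing R] {L : ℕ} (J : Ideal R) (x : Fin L → R) :
    x ∈ (J • ⊤ : Submodule R (Fin L → R)) ↔ ∀ j, x j ∈ J := by
  classical
  constructor
  · intro hx j
    induction hx using Submodule.smul_induction_on' with
    | smul r hr y _ => exact J.mul_mem_right _ hr
    | add y _ z _ hy hz => exact J.add_mem hy hz
  · intro h
    have h1 : x = ∑ j, x j • (Pi.single j 1 : Fin L → R) := by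
      ext i
      simp [Finset.sum_apply, Pi.single_apply]
    rw [h1]
    exact Submodule.sum_mem _ fun j _ => Submodule.smul_mem_smul (h j) trivial

/-- The polynomials with the coefficients `v` on the finite set `Λ` of exponents. -/
noncomputable def ofCoeffs {n k : ℕ} (Λ : Finset (Fin n →₀ ℕ)) :
    (Fin k × Λ → ℂ) →ₗ[ℂ] (Fin k → MvPolynomial (Fin n) ℂ) where
  toFun v j := ∑ s : Λ, monomial (s : Fin n →₀ ℕ) (v (j, s))
  map_add' v w := by
    ext1 j
    simp only [Pi.add_apply, map_add, Finset.sum_add_distrib]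
  map_smul' c v := by
    ext1 j
    simp only [Pi.smul_apply, RingHom.id_apply, Finset.smul_sum, smul_monomial]

theorem ofCoeffs_coeff {n k : ℕ} (Λ : Finset (Fin n →₀ ℕ))
    (g : Fin k → MvPolynomial (Fin n) ℂ) (hg : ∀ j, (g j).support ⊆ Λ) :
    ofCoeffs Λ (fun p => (g p.1).coeff p.2) = g := by
  classical
  ext1 j
  change ∑ s : Λ, monomial (s : Fin n →₀ ℕ) ((g j).coeff s) = g j
  rw [Finset.sum_coe_sort Λ fun s => monomial s ((g j).coeff s)]
  conv_rhs => rw [(g j).as_sum]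
  refine (Finset.sum_subset (hg j) fun s _ hs => ?_).symm
  rw [notMem_support_iff.1 hs, monomial_zero]

/-- Artin-Rees with bounds. -/
theorem exists_bounded_lift {n k L : ℕ} (I : Ideal (MvPolynomial (Fin n) ℂ))
    (A : (Fin k → MvPolynomial (Fin n) ℂ) →ₗ[MvPolynomial (Fin n) ℂ]
      (Fin L → MvPolynomial (Fin n) ℂ)) : ∃ c : ℕ, ∀ (m : ℕ) (Λ : Finset (Fin n →₀ ℕ)),
    ∃ (Λ' : Finset (Fin n →₀ ℕ)) (C : ℝ), 0 ≤ C ∧ ∀ (g : Fin k → MvPolynomial (Fin n) ℂ) (t : ℝ),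
      (∀ j, (g j).support ⊆ Λ) → (∀ j s, ‖(g j).coeff s‖ ≤ t) →
      (∀ j, A g j ∈ I ^ (m + c)) → ∃ r : Fin k → MvPolynomial (Fin n) ℂ, A r = A g ∧
        (∀ j, r j ∈ I ^ m) ∧ (∀ j, (r j).support ⊆ Λ') ∧ ∀ j s, ‖(r j).coeff s‖ ≤ C * t := by
  classical
  obtain ⟨c, hc⟩ := artinRees_lift I A
  refine ⟨c, fun m Λ => ?_⟩
  let S : Submodule ℂ (Fin k → MvPolynomial (Fin n) ℂ) :=
    (I ^ m • ⊤ : Submodule (MvPolynomial (Fin n) ℂ) (Fin k → MvPolynomial (Fin n) ℂ)).restrictScalars ℂ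
  let Ψ : S →ₗ[ℂ] (Fin L → MvPolynomial (Fin n) ℂ) := (A.restrictScalars ℂ).comp S.subtype
  let T : (Fin k × Λ → ℂ) →ₗ[ℂ] (Fin L → MvPolynomial (Fin n) ℂ) :=
    (A.restrictScalars ℂ).comp (ofCoeffs Λ)
  let W : Submodule ℂ (Fin k × Λ → ℂ) := Submodule.comap T
    ((I ^ (m + c) • ⊤ : Submodule (MvPolynomial (Fin n) ℂ)
      (Fin L → MvPolynomial (Fin n) ℂ)).restrictScalars ℂ)
  have hW : ∀ w : W, T w ∈ LinearMap.range Ψ := by
    rintro ⟨w, hw⟩
    obtain ⟨r, hr, hrw⟩ := hc m (ofCoeffs Λ w) hw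
    exact ⟨⟨r, hr⟩, hrw⟩
  obtain ⟨R₀, hR₀⟩ := Module.projective_lifting_property Ψ.rangeRestrict
    (LinearMap.codRestrict (LinearMap.range Ψ) (T.comp W.subtype) hW) Ψ.surjective_rangeRestrict
  obtain ⟨R, hR⟩ := LinearMap.exists_extend (S.subtype.comp R₀)
  have hRW : ∀ w : W, R w ∈ S ∧ A (R w) = T w := by
    intro w
    have h1 : R w = (R₀ w : Fin k → MvPolynomial (Fin n) ℂ) := LinearMap.congr_fun hR w
    refine ⟨h1 ▸ (R₀ w).2, ?_⟩
    have h2 := congrArg Subtype.val (LinearMap.congr_fun hR₀ w)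
    rw [h1]
    exact h2
  -- bounds
  set E : Fin k × Λ → (Fin k → MvPolynomial (Fin n) ℂ) := fun p => R (Pi.single p 1) with hE
  have hsum : ∀ v, R v = ∑ p, v p • E p := by
    intro v
    conv_lhs => rw [← LinearMap.sum_single_apply (fun _ : Fin k × Λ => ℂ) v]
    rw [map_sum]
    refine Finset.sum_congr rfl fun p _ => ?_
    rw [hE, ← map_smul]
    congr 1
    ext q
    by_cases hq : q = p
    · subst hq; simp
    · simp [hq]
  set Λ' : Finset (Fin n →₀ ℕ) := Finset.univ.biUnion fun p => Finset.univ.biUnion fun j =>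
    (E p j).support with hΛ'
  set C : ℝ := ∑ p, ∑ j, ∑ s ∈ (E p j).support, ‖(E p j).coeff s‖ with hC
  have hEb : ∀ p j s, ‖(E p j).coeff s‖ ≤ ∑ j, ∑ s ∈ (E p j).support, ‖(E p j).coeff s‖ := by
    intro p j s
    have h3 : ‖(E p j).coeff s‖ ≤ ∑ s ∈ (E p j).support, ‖(E p j).coeff s‖ := by
      by_cases hs : s ∈ (E p j).support
      · exact Finset.single_le_sum (f := fun s => ‖(E p j).coeff s‖)
          (fun _ _ => norm_nonneg _) hs
      · rw [notMem_support_iff.1 hs, norm_zero]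
        exact Finset.sum_nonneg fun _ _ => norm_nonneg _
    exact h3.trans (Finset.single_le_sum
      (f := fun j => ∑ s ∈ (E p j).support, ‖(E p j).coeff s‖)
      (fun _ _ => Finset.sum_nonneg fun _ _ => norm_nonneg _) (Finset.mem_univ j))
  refine ⟨Λ', C, by positivity, fun g t hsupp hcoef hA => ?_⟩
  set v : Fin k × Λ → ℂ := fun p => (g p.1).coeff p.2 with hv
  have hgv : ofCoeffs Λ v = g := ofCoeffs_coeff Λ g hsupp
  have hTv : T v = A g := by
    change A (ofCoeffs Λ v) = A g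
    rw [hgv]
  have hvW : v ∈ W := by
    change T v ∈ (I ^ (m + c) • ⊤ : Submodule (MvPolynomial (Fin n) ℂ)
      (Fin L → MvPolynomial (Fin n) ℂ))
    rw [hTv]
    exact (mem_smul_top_pi_iff _ _).2 hA
  have h4 := hRW ⟨v, hvW⟩
  refine ⟨R v, h4.2.trans hTv, fun j => ?_, fun j s hs => ?_, fun j s => ?_⟩
  · exact (mem_smul_top_pi_iff _ _).1 h4.1 j
  · by_contra hcon
    rw [mem_support_iff] at hs
    apply hs
    rw [hsum, Finset.sum_apply, coeff_sum]
    refine Finset.sum_eq_zero fun p _ => ?_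
    rw [Pi.smul_apply, coeff_smul, notMem_support_iff.1, smul_zero]
    intro h5
    exact hcon (Finset.mem_biUnion.2 ⟨p, Finset.mem_univ _,
      Finset.mem_biUnion.2 ⟨j, Finset.mem_univ _, h5⟩⟩)
  · rw [hsum, Finset.sum_apply, coeff_sum, hC, Finset.sum_mul]
    refine (norm_sum_le _ _).trans (Finset.sum_le_sum fun p _ => ?_)
    rw [Pi.smul_apply, coeff_smul, smul_eq_mul, norm_mul, mul_comm]
    have h6 : ‖v p‖ ≤ t := hcoef _ _
    exact mul_le_mul (hEb p j s) h6 (norm_nonneg _) (Finset.sum_nonneg fun _ _ =>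
      Finset.sum_nonneg fun _ _ => norm_nonneg _)

end Pool.Agent.Odp3
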