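import Mathlib

/-!
# A trace form with a dual basis is the trace
-/

open scoped nonZeroDivisors TensorProduct

namespace Pool.Agent.Odp3

/-- Let `T : B → P` be linear, with dual systems `e`, `du` such that `D b = ∑ T(du_i b) e_i` and
`∑ du_i e_i = D`. Then `T` is the trace of the extension of the fraction fields. -/
theorem trace_eq_of_dual {P B F K : Type*} [CommRing P] [IsDomain P] [CommRing B] [IsDomain B]
    [Algebra P B] [Field F] [Algebra P F] [IsFractionRing P F] [Field K] [Algebra B K]
    [Algebra F K] [Algebra P K] [IsScalarTower P F K] [IsScalarTower P B K]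
    [IsLocalization (Algebra.algebraMapSubmonoid B P⁰) K] [FiniteDimensional F K] {d : ℕ}
    (e du : Fin d → B) (D : P) (hD : D ≠ 0) (T : B →ₗ[P] P)
    (spec : ∀ b, D • b = ∑ i, T (du i * b) • e i) (hde : ∑ i, du i * e i = algebraMap P B D)
    (b : B) : Algebra.trace F K (algebraMap B K b) = algebraMap P F (T b) := by
  have hloc : IsLocalizedModule P⁰ (IsScalarTower.toAlgHom P B K).toLinearMap :=
    isLocalizedModule_iff_isLocalization.2 inferInstance
  set j : B →ₗ[P] K := (IsScalarTower.toAlgHom P B K).toLinearMap with hj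
  have hjb : ∀ b, j b = algebraMap B K b := fun _ => rfl
  have hunit : ∀ s : P⁰, IsUnit (algebraMap P (Module.End P F) s) := by
    intro s
    exact IsLocalizedModule.map_units (S := P⁰) (Algebra.linearMap P F) s
  let T₁ : K →ₗ[P] F := IsLocalizedModule.lift P⁰ j ((Algebra.linearMap P F).comp T) hunit
  have hT₁ : ∀ b, T₁ (j b) = algebraMap P F (T b) := fun b =>
    IsLocalizedModule.lift_apply P⁰ j _ hunit b
  let T₂ : K →ₗ[F] F := T₁.extendScalarsOfIsLocalization P⁰ F
  have hT₂ : ∀ b, T₂ (algebraMap B K b) = algebraMap P F (T b) := hT₁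
  have hDF : algebraMap P F D ≠ 0 := by
    intro h
    exact hD (IsFractionRing.injective P F (by rw [h, map_zero]))
  have hDK : algebraMap P K D ≠ 0 := by
    rw [IsScalarTower.algebraMap_apply P F K]
    exact fun h => hDF ((algebraMap F K).injective (by rw [h, map_zero]))
  let ψ : Fin d → Module.Dual F K := fun i =>
    (algebraMap P F D)⁻¹ • T₂.comp (LinearMap.mulLeft F (algebraMap B K (du i)))
  have hψ : ∀ i x, ψ i x = (algebraMap P F D)⁻¹ * T₂ (algebraMap B K (du i) * x) := fun _ _ => rfl
  have hagree : ∀ x : K, x = ∑ i, ψ i x • algebraMap B K (e i) := by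
    intro x
    obtain ⟨⟨c, s⟩, hs⟩ := IsLocalizedModule.surj P⁰ j x
    have hs' : algebraMap P F s • x = algebraMap B K c := by
      rw [← hjb, ← hs, Submonoid.smul_def, Algebra.smul_def, Algebra.smul_def,
        ← IsScalarTower.algebraMap_apply]
    have hs0 : algebraMap P F s ≠ 0 := by
      intro h
      exact nonZeroDivisors.ne_zero s.2 (IsFractionRing.injective P F (by rw [h, map_zero]))
    have h1 : algebraMap B K c = ∑ i, ψ i (algebraMap B K c) • algebraMap B K (e i) := by
      have h2 := congrArg (algebraMap B K) (spec c)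
      rw [Algebra.smul_def, map_mul, map_sum, ← IsScalarTower.algebraMap_apply] at h2
      apply mul_left_cancel₀ hDK
      rw [h2, Finset.mul_sum]
      refine Finset.sum_congr rfl fun i _ => ?_
      have h5 : algebraMap B K (T (du i * c) • e i) =
          algebraMap P K (T (du i * c)) * algebraMap B K (e i) := by
        rw [Algebra.smul_def, map_mul, ← IsScalarTower.algebraMap_apply]
      have h6 : ψ i (algebraMap B K c) =
          (algebraMap P F D)⁻¹ * algebraMap P F (T (du i * c)) := by
        rw [hψ, ← map_mul, hT₂]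
      rw [h5, h6, Algebra.smul_def, map_mul (algebraMap F K), map_inv₀,
        ← IsScalarTower.algebraMap_apply, ← IsScalarTower.algebraMap_apply]
      field_simp
    have h3 : algebraMap P F s • x = algebraMap P F s • ∑ i, ψ i x • algebraMap B K (e i) := by
      rw [hs', h1, Finset.smul_sum]
      refine Finset.sum_congr rfl fun i _ => ?_
      rw [← hs', map_smul, smul_assoc]
    exact smul_right_injective K hs0 h3
  rw [Algebra.trace_apply]
  have h4 : LinearMap.mul F K (algebraMap B K b) =
      dualTensorHom F K K (∑ i, ψ i ⊗ₜ[F] (algebraMap B K b * algebraMap B K (e i))) := by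
    ext x
    rw [map_sum, LinearMap.sum_apply]
    simp only [dualTensorHom_apply, LinearMap.mul_apply']
    conv_lhs => rw [hagree x, Finset.mul_sum]
    exact Finset.sum_congr rfl fun i _ => mul_smul_comm _ _ _
  have h7 : (LinearMap.mul F K) (algebraMap B K b) = Algebra.lmul F K (algebraMap B K b) := rfl
  rw [← h7, h4, LinearMap.trace_eq_contract_apply, map_sum]
  simp only [contractLeft_apply]
  have h8 : ∀ i, ψ i (algebraMap B K b * algebraMap B K (e i)) =
      (algebraMap P F D)⁻¹ * algebraMap P F (T (du i * (b * e i))) := by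
    intro i
    rw [hψ, ← map_mul, ← map_mul, hT₂]
  rw [Finset.sum_congr rfl fun i _ => h8 i, ← Finset.mul_sum, ← map_sum, ← map_sum]
  have h9 : ∑ i, du i * (b * e i) = D • b := by
    rw [Algebra.smul_def, ← hde, Finset.sum_mul]
    exact Finset.sum_congr rfl fun i _ => by ring
  rw [h9, map_smul, smul_eq_mul, map_mul, inv_mul_cancel_left₀ hDF]

end Pool.Agent.Odp3
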