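import Pool.Agent.Odp3.Alg.CanonAux
import Pool.Agent.Odp3.Alg.TraceEq

/-!
# The codifferent and the `r`-canonical generator
-/

open scoped ContDiff Topology ENNReal NNReal WithZero nonZeroDivisors
open Set MeasureTheory Filter MvPolynomial Pool.Agent.ODP

namespace Pool.Agent.Odp3

section

variable {n d : ℕ} {B : Type} [CommRing B] [Algebra ℂ B] (G : Germ n d B)

theorem Germ.tr_zero' : G.tr 0 = 0 := by
  have h := G.tr_add 0 0
  rw [add_zero] at h
  exact left_eq_add.1 h

theorem Germ.tr_sum' {ι : Type*} (s : Finset ι) (f : ι → B) :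
    G.tr (∑ i ∈ s, f i) = ∑ i ∈ s, G.tr (f i) := by
  classical
  induction s using Finset.induction_on with
  | empty => rw [Finset.sum_empty, Finset.sum_empty, G.tr_zero']
  | insert a s ha ih => rw [Finset.sum_insert ha, Finset.sum_insert ha, G.tr_add, ih]

/-- The fibres over `{D ≠ 0}` are finite. -/
theorem Germ.finite_fibre' [IsDomain B] (w : Fin n → ℂ) (hw : eval w G.D ≠ 0) :
    {χ : Pt B | proj G.y χ = w}.Finite := by
  rcases Nat.eq_zero_or_pos d with hd | hd
  · exfalso
    subst hd
    have h1 := G.spec 1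
    rw [Finset.univ_eq_empty, Finset.sum_empty, mul_one] at h1
    exact G.D_ne (G.inj (h1.trans (map_zero _).symm))
  · refine Set.finite_of_ncard_ne_zero ?_
    rw [G.card w hw]
    exact hd.ne'

/-- An element of `B` that vanishes at all points over `{D ≠ 0}` is zero. -/
theorem Germ.eq_zero_of_pt' [IsDomain B] (z : B)
    (hz : ∀ χ : Pt B, eval (proj G.y χ) G.D ≠ 0 → χ z = 0) : z = 0 := by
  have h1 : ∀ i, G.tr (G.du i * z) = 0 := by
    intro i
    have h2 : G.tr (G.du i * z) * G.D = 0 := by
      apply MvPolynomial.funext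
      intro w
      rw [map_mul, map_zero]
      by_cases hw : eval w G.D = 0
      · rw [hw, mul_zero]
      · have hf := G.finite_fibre' w hw
        rw [← G.tr_pt w hw hf.toFinset (fun χ => by simp) (G.du i * z),
          Finset.sum_eq_zero, zero_mul]
        intro χ hχ
        have hχ' : proj G.y χ = w := (Set.Finite.mem_toFinset hf).1 hχ
        rw [map_mul, hz χ (by rwa [hχ']), mul_zero]
    exact (mul_eq_zero.1 h2).resolve_right G.D_ne
  have h3 := G.spec z
  rw [Finset.sum_eq_zero fun i _ => by rw [h1 i, map_zero, zero_mul]] at h3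
  exact (mul_eq_zero.1 h3).resolve_left fun h => G.D_ne (G.inj (h.trans (map_zero _).symm))

theorem Germ.sum_du_e' [IsDomain B] : ∑ i, G.du i * G.e i = aeval G.y G.D := by
  rw [← sub_eq_zero]
  refine G.eq_zero_of_pt' _ fun χ hχ => ?_
  have h1 := (G.du_spec _ hχ χ χ rfl rfl).1 rfl
  have h2 : χ (aeval G.y G.D) = eval (proj G.y χ) G.D := by
    have h3 : χ.comp (aeval G.y : MvPolynomial (Fin n) ℂ →ₐ[ℂ] B) = aeval (proj G.y χ) := by
      ext i
      simp [proj]
    have h4 := AlgHom.congr_fun h3 G.D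
    rw [AlgHom.comp_apply] at h4
    rw [h4]
    rfl
  rw [map_sub, map_sum, h2, ← h1, sub_eq_zero]
  exact Finset.sum_congr rfl fun i _ => map_mul _ _ _

end

/-- `(u / D)^r h` is regular at `x` when `u / D` is in the codifferent. -/
theorem Germ.canon {n d : ℕ} {B : Type} [CommRing B] [IsDomain B] [IsIntegrallyClosed B]
    [Algebra ℂ B] {K : Type} [Field K] [Algebra B K] [IsFractionRing B K] [Algebra ℂ K]
    [IsScalarTower ℂ B K] (G : Germ n d B) (x : Pt B) (r : ℕ) (h : B)
    (hK : IsRCanonicalAt ℂ (RingHom.ker x) (fun i => algebraMap B K (G.y i)) r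
      (algebraMap B K h)) (u : B) (hu : G.IsOm u) :
    ∃ t b : B, x t ≠ 0 ∧ t * u ^ r * h = aeval G.y G.D ^ r * b := by
  let : Algebra (MvPolynomial (Fin n) ℂ) B :=
    (MvPolynomial.aeval G.y : MvPolynomial (Fin n) ℂ →ₐ[ℂ] B).toRingHom.toAlgebra
  have hm : ∀ p, algebraMap (MvPolynomial (Fin n) ℂ) B p = aeval G.y p := fun _ => rfl
  have hfin : Module.Finite (MvPolynomial (Fin n) ℂ) B := G.fin
  have htow : IsScalarTower ℂ (MvPolynomial (Fin n) ℂ) B :=
    IsScalarTower.of_algebraMap_eq fun c => ((MvPolynomial.aeval G.y).commutes c).symm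
  let F := FractionRing (MvPolynomial (Fin n) ℂ)
  let : Algebra (MvPolynomial (Fin n) ℂ) K :=
    ((algebraMap B K).comp (algebraMap (MvPolynomial (Fin n) ℂ) B)).toAlgebra
  have hPBK : IsScalarTower (MvPolynomial (Fin n) ℂ) B K := IsScalarTower.of_algebraMap_eq' rfl
  have hfaith : FaithfulSMul (MvPolynomial (Fin n) ℂ) B := by
    rw [faithfulSMul_iff_algebraMap_injective]
    exact G.inj
  have hinj : FaithfulSMul (MvPolynomial (Fin n) ℂ) K := by
    rw [faithfulSMul_iff_algebraMap_injective]
    exact (IsFractionRing.injective B K).comp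
      (FaithfulSMul.algebraMap_injective (MvPolynomial (Fin n) ℂ) B)
  let : Algebra F K := FractionRing.liftAlgebra (MvPolynomial (Fin n) ℂ) K
  have hPFK : IsScalarTower (MvPolynomial (Fin n) ℂ) F K :=
    FractionRing.isScalarTower_liftAlgebra _ _
  have hloc : IsLocalization (Algebra.algebraMapSubmonoid B (MvPolynomial (Fin n) ℂ)⁰) K :=
    inferInstance
  have hfin : FiniteDimensional F K :=
    Module.Finite.of_isLocalization (MvPolynomial (Fin n) ℂ) B (MvPolynomial (Fin n) ℂ)⁰
  have hkFK : IsScalarTower ℂ F K := by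
    refine IsScalarTower.of_algebraMap_eq fun c => ?_
    rw [IsScalarTower.algebraMap_apply ℂ (MvPolynomial (Fin n) ℂ) F,
      ← IsScalarTower.algebraMap_apply (MvPolynomial (Fin n) ℂ) F K,
      IsScalarTower.algebraMap_apply (MvPolynomial (Fin n) ℂ) B K,
      ← IsScalarTower.algebraMap_apply ℂ (MvPolynomial (Fin n) ℂ) B,
      ← IsScalarTower.algebraMap_apply ℂ B K]
  have hX : ∀ i, algebraMap (MvPolynomial (Fin n) ℂ) B (X i) = G.y i := fun i =>
    MvPolynomial.aeval_X G.y i
  have hyK : (fun i => algebraMap B K (G.y i)) =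
      fun i => algebraMap (MvPolynomial (Fin n) ℂ) K (X i) := by
    funext i
    rw [← hX i, ← IsScalarTower.algebraMap_apply]
  rw [hyK] at hK
  have hD : algebraMap (MvPolynomial (Fin n) ℂ) K G.D ≠ 0 := by
    intro h0
    exact G.D_ne (FaithfulSMul.algebraMap_injective (MvPolynomial (Fin n) ℂ) K
      (by rw [h0, map_zero]))
  let T : B →ₗ[MvPolynomial (Fin n) ℂ] MvPolynomial (Fin n) ℂ :=
    { toFun := G.tr
      map_add' := G.tr_add
      map_smul' := fun p b => by
        rw [Algebra.smul_def, hm, G.tr_mul]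
        rfl }
  have htrace : ∀ b : B, Algebra.trace F K (algebraMap B K b) =
      algebraMap (MvPolynomial (Fin n) ℂ) F (G.tr b) := by
    intro b
    exact trace_eq_of_dual (F := F) (K := K) G.e G.du G.D G.D_ne T (fun b => by
      rw [Algebra.smul_def, hm, G.spec]
      exact Finset.sum_congr rfl fun i _ => by rw [Algebra.smul_def, hm]; rfl) G.sum_du_e' b
  obtain ⟨b₁, hb₁, b₂, hb⟩ := canon_trace_pow (F := F) (RingHom.ker x) r (algebraMap B K h) hK
    (algebraMap B K u / algebraMap (MvPolynomial (Fin n) ℂ) K G.D) (fun b => by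
      obtain ⟨p, hp⟩ := hu b
      refine ⟨p, ?_⟩
      have h2 : algebraMap (MvPolynomial (Fin n) ℂ) F G.D ≠ 0 := by
        intro h0
        exact G.D_ne (IsFractionRing.injective (MvPolynomial (Fin n) ℂ) F
          (by rw [h0, map_zero]))
      have h3 : algebraMap B K u / algebraMap (MvPolynomial (Fin n) ℂ) K G.D *
          algebraMap B K b = (algebraMap (MvPolynomial (Fin n) ℂ) F G.D)⁻¹ •
            algebraMap B K (u * b) := by
        rw [Algebra.smul_def, map_inv₀, ← IsScalarTower.algebraMap_apply, map_mul]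
        ring
      rw [h3, map_smul, htrace, hp, map_mul, smul_eq_mul, inv_mul_cancel_left₀ h2])
  refine ⟨b₁, b₂, hb₁, ?_⟩
  apply IsFractionRing.injective B K
  rw [map_mul, map_mul, map_pow, map_mul, map_pow, ← hb, ← hm,
    ← IsScalarTower.algebraMap_apply, div_pow]
  field_simp

end Pool.Agent.Odp3
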