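import Pool.Agent.Odp3.Defs
import Pool.Agent.ODP.Codim1

/-!
# The inverse different and the `r`-canonical generator, without freeness
-/

open scoped WithZero
open IsDedekindDomain MvPolynomial Pool.Agent.ODP

namespace Pool.Agent.Odp3

set_option linter.unusedSectionVars false
set_option linter.deprecated false

variable {k : Type*} [Field k] [CharZero k] {n : ℕ} {B F K : Type*}
  [CommRing B] [IsDomain B] [IsIntegrallyClosed B]
  [Algebra (MvPolynomial (Fin n) k) B] [Module.Finite (MvPolynomial (Fin n) k) B]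
  [Field F] [Algebra (MvPolynomial (Fin n) k) F] [IsFractionRing (MvPolynomial (Fin n) k) F]
  [Algebra k F] [IsScalarTower k (MvPolynomial (Fin n) k) F]
  [Field K] [Algebra B K] [IsFractionRing B K] [Algebra F K] [FiniteDimensional F K]
  [Algebra (MvPolynomial (Fin n) k) K] [IsScalarTower (MvPolynomial (Fin n) k) F K]
  [IsScalarTower (MvPolynomial (Fin n) k) B K]
  [Algebra k K] [IsScalarTower k F K]

/-- What the places above the prime `p` do. -/
theorem one_prime (p : MvPolynomial (Fin n) k) (hp : Prime p)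
    (O C : Type*) [CommRing O] [IsDomain O] [IsDiscreteValuationRing O]
    [Algebra (MvPolynomial (Fin n) k) O] [Algebra O F]
    [IsScalarTower (MvPolynomial (Fin n) k) O F] [IsFractionRing O F]
    [(Ideal.span {p}).IsPrime] [IsLocalization.AtPrime O (Ideal.span {p})]
    [CommRing C] [IsDedekindDomain C] [Algebra O C]
    [Algebra C K] [Algebra O K] [IsScalarTower O F K] [IsScalarTower O C K]
    [IsIntegralClosure C O K] [IsFractionRing C K]
    [Module.Finite O C] :
    (∀ Q : HeightOneSpectrum C, IsPrimeDivisor B (Q.valuation K) ∧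
      (∀ s : MvPolynomial (Fin n) k, Q.valuation K (algebraMap _ K s) ≤ 1) ∧
      (∀ s : MvPolynomial (Fin n) k, ¬ p ∣ s → Q.valuation K (algebraMap _ K s) = 1) ∧
      Q.valuation K (algebraMap _ K p) < 1 ∧
      ∀ e : ℤ, Q.valuation K (algebraMap _ K p) = WithZero.exp (-e) →
        IsFormOrder k (Q.valuation K) (fun i => algebraMap (MvPolynomial (Fin n) k) K (X i))
          (e - 1)) ∧
    Finite (HeightOneSpectrum C) ∧
    (∀ z : K, (∀ Q : HeightOneSpectrum C, Q.valuation K z ≤ 1) →
      ∃ s : MvPolynomial (Fin n) k, ¬ p ∣ s ∧ ∃ b : B, algebraMap _ K s * z = algebraMap B K b) ∧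
    (∀ z : K, (∀ Q : HeightOneSpectrum C, Q.valuation K (algebraMap _ K p * z) < 1) →
      ∃ s : MvPolynomial (Fin n) k, ¬ p ∣ s ∧ ∃ a : MvPolynomial (Fin n) k,
        algebraMap _ F s * Algebra.trace F K z = algebraMap _ F a) ∧
    (∀ z : K, (∀ b : B, ∃ a : MvPolynomial (Fin n) k,
      algebraMap _ F a = Algebra.trace F K (z * algebraMap B K b)) →
      ∀ Q : HeightOneSpectrum C, Q.valuation K (algebraMap _ K p * z) < 1) := by
  have tower : IsScalarTower (MvPolynomial (Fin n) k) O K := by
    refine IsScalarTower.of_algebraMap_eq fun s => ?_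
    rw [IsScalarTower.algebraMap_apply (MvPolynomial (Fin n) k) F K,
      IsScalarTower.algebraMap_apply (MvPolynomial (Fin n) k) O F,
      ← IsScalarTower.algebraMap_apply O F K]
  have h0 := torsionFree_C O F K C
  have mem_pc : ∀ s : MvPolynomial (Fin n) k, s ∈ (Ideal.span {p}).primeCompl ↔ ¬ p ∣ s := by
    intro s
    rw [Ideal.mem_primeCompl_iff, Ideal.mem_span_singleton]
  have hPO : ∀ s : MvPolynomial (Fin n) k, algebraMap _ K s =
      algebraMap O K (algebraMap _ O s) := fun s =>
    IsScalarTower.algebraMap_apply (MvPolynomial (Fin n) k) O K s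
  have hunit : ∀ s : MvPolynomial (Fin n) k, ¬ p ∣ s → IsUnit (algebraMap _ O s) := fun s hs =>
    IsLocalization.map_units O (⟨s, (mem_pc s).2 hs⟩ : (Ideal.span {p}).primeCompl)
  have hle : ∀ (Q : HeightOneSpectrum C) (s : MvPolynomial (Fin n) k),
      Q.valuation K (algebraMap _ K s) ≤ 1 := by
    intro Q s
    rw [hPO]
    exact place_le_one Q _
  have heq : ∀ (Q : HeightOneSpectrum C) (s : MvPolynomial (Fin n) k), ¬ p ∣ s →
      Q.valuation K (algebraMap _ K s) = 1 := by
    intro Q s hs
    rw [hPO]
    exact place_eq_one Q (hunit s hs)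
  have hlt : ∀ Q : HeightOneSpectrum C, Q.valuation K (algebraMap _ K p) < 1 := by
    intro Q
    rw [hPO]
    refine place_lt_one Q ?_
    rw [IsLocalization.AtPrime.to_map_mem_maximal_iff O (Ideal.span {p})]
    exact Ideal.mem_span_singleton_self p
  -- `B ⊆ C`
  have hBC : ∀ b : B, ∃ c : C, algebraMap C K c = algebraMap B K b := by
    intro b
    have h1 : IsIntegral (MvPolynomial (Fin n) k) (algebraMap B K b) :=
      (Algebra.IsIntegral.isIntegral b).map
        (IsScalarTower.toAlgHom (MvPolynomial (Fin n) k) B K)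
    have h2 : IsIntegral O (algebraMap B K b) := h1.tower_top
    exact (IsIntegralClosure.isIntegral_iff (A := C)).1 h2
  -- `C` is the localization of `B`
  have hCB : ∀ c : C, ∃ s : MvPolynomial (Fin n) k, ¬ p ∣ s ∧ ∃ b : B,
      algebraMap (MvPolynomial (Fin n) k) K s * algebraMap C K c = algebraMap B K b := by
    intro c
    have h1 : IsIntegral O (algebraMap C K c) := IsIntegralClosure.isIntegral_iff.2 ⟨c, rfl⟩
    obtain ⟨⟨s, hs⟩, h2⟩ := IsIntegral.exists_multiple_integral_of_isLocalization
      (Ideal.span {p}).primeCompl _ h1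
    obtain ⟨b, hb⟩ := (IsIntegralClosure.isIntegral_iff (A := B)).1 h2
    refine ⟨s, (mem_pc s).1 hs, b, ?_⟩
    rw [hb, Submonoid.smul_def, Algebra.smul_def]
  have hBle : ∀ (Q : HeightOneSpectrum C) (b : B), Q.valuation K (algebraMap B K b) ≤ 1 := by
    intro Q b
    obtain ⟨c, hc⟩ := hBC b
    rw [← hc]
    exact Q.valuation_le_one c
  have hcF : CharZero F := charZero_of_injective_algebraMap (algebraMap k F).injective
  have ht : Irreducible (algebraMap (MvPolynomial (Fin n) k) O p) := by
    rw [IsDiscreteValuationRing.irreducible_iff_uniformizer,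
      ← IsLocalization.AtPrime.map_eq_maximalIdeal (Ideal.span {p}) O, Ideal.map_span,
      Set.image_singleton]
  refine ⟨fun Q => ⟨⟨⟨Q.valuation_surjective K, hBle Q⟩, ?_⟩, hle Q, heq Q, hlt Q, fun e he =>
    formOrder_prime (F := F) p hp (O := O) (C := C) Q e he⟩, finite_places O C, ?_, ?_, ?_⟩
  · -- the valuation ring is a local ring of `B`
    intro z hz
    obtain ⟨a, d, hd, had⟩ : ∃ a d : C, Q.valuation K (algebraMap C K d) = 1 ∧
        z * algebraMap C K d = algebraMap C K a := by
      obtain ⟨a, d, h | h⟩ := Q.exists_primeCompl_mul_eq_or_mul_eq (K := K) z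
      · exact ⟨a, d, (HeightOneSpectrum.valuation_eq_one_iff_notMem (K := K) (v := Q)).mpr d.2,
          h⟩
      · refine ⟨d, a, ?_, h⟩
        have hd1 : Q.valuation K (algebraMap C K d) = 1 :=
          (HeightOneSpectrum.valuation_eq_one_iff_notMem (K := K) (v := Q)).mpr d.2
        rw [← h, map_mul] at hd1
        refine le_antisymm (Q.valuation_le_one a) ?_
        calc (1 : ℤᵐ⁰) = Q.valuation K z * Q.valuation K (algebraMap C K a) := hd1.symm
          _ ≤ 1 * Q.valuation K (algebraMap C K a) := mul_le_mul' hz le_rfl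
          _ = _ := one_mul _
    obtain ⟨s, hs, b, hb⟩ := hCB d
    obtain ⟨s', hs', b', hb'⟩ := hCB a
    refine ⟨algebraMap _ B s * b', algebraMap _ B s' * b, ?_, ?_⟩
    · rw [map_mul, map_mul, ← hb, map_mul, ← IsScalarTower.algebraMap_apply, heq Q s hs,
        heq Q s' hs', hd, one_mul, one_mul]
    · rw [map_mul, map_mul, ← hb, ← hb', ← IsScalarTower.algebraMap_apply,
        ← IsScalarTower.algebraMap_apply, ← had]
      ring
  · -- integral at all places
    intro z hz
    obtain ⟨c, rfl⟩ := HeightOneSpectrum.mem_integers_of_valuation_le_one (R := C) K z hz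
    exact hCB c
  · -- traces
    intro z hz
    obtain ⟨r, hr⟩ := trace_integral (F := F) (C := C) _ ht z (fun Q => by
      rw [← hPO]
      exact hz Q)
    obtain ⟨⟨a, s, hs⟩, hx⟩ := IsLocalization.surj (Ideal.span {p}).primeCompl r
    refine ⟨s, (mem_pc s).1 hs, a, ?_⟩
    rw [← hr, IsScalarTower.algebraMap_apply (MvPolynomial (Fin n) k) O F a, ← hx, map_mul,
      ← IsScalarTower.algebraMap_apply, mul_comm]
  · intro z hz
    have hcz : CharZero (IsLocalRing.ResidueField O) := by
      have f : k →+* IsLocalRing.ResidueField O := (IsLocalRing.residue O).comp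
        ((algebraMap (MvPolynomial (Fin n) k) O).comp (algebraMap k (MvPolynomial (Fin n) k)))
      exact charZero_of_injective_ringHom f.injective
    have key := codiff_le (F := F) (K := K) (C := C) (algebraMap _ O p) ht z (fun c => by
      obtain ⟨s, hs, b, hb⟩ := hCB c
      obtain ⟨a, ha⟩ := hz b
      obtain ⟨w, hw⟩ := (hunit s hs).exists_right_inv
      refine ⟨algebraMap _ O a * w, ?_⟩
      have h1 : algebraMap _ F s * Algebra.trace F K (z * algebraMap C K c) =
          algebraMap _ F a := by
        rw [ha, ← hb, ← smul_eq_mul, ← map_smul, Algebra.smul_def,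
          ← IsScalarTower.algebraMap_apply]
        congr 1
        ring
      have h2 : algebraMap (MvPolynomial (Fin n) k) F s * algebraMap O F w = 1 := by
        rw [IsScalarTower.algebraMap_apply (MvPolynomial (Fin n) k) O F, ← map_mul, hw, map_one]
      rw [map_mul, ← IsScalarTower.algebraMap_apply, ← h1]
      calc algebraMap (MvPolynomial (Fin n) k) F s * Algebra.trace F K (z * algebraMap C K c) *
            algebraMap O F w
          = (algebraMap (MvPolynomial (Fin n) k) F s * algebraMap O F w) *
            Algebra.trace F K (z * algebraMap C K c) := by ring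
        _ = _ := by rw [h2, one_mul])
    intro Q
    rw [hPO]
    exact key Q

/-- the places above the prime `p` -/
theorem exists_places (p : MvPolynomial (Fin n) k) (hp : Prime p) :
    ∃ S : Set (Valuation K ℤᵐ⁰), S.Finite ∧
    (∀ v ∈ S, IsPrimeDivisor B v ∧
      (∀ s : MvPolynomial (Fin n) k, v (algebraMap _ K s) ≤ 1) ∧
      (∀ s : MvPolynomial (Fin n) k, ¬ p ∣ s → v (algebraMap _ K s) = 1) ∧
      v (algebraMap _ K p) < 1 ∧
      ∀ e : ℤ, v (algebraMap _ K p) = WithZero.exp (-e) →
        IsFormOrder k v (fun i => algebraMap (MvPolynomial (Fin n) k) K (X i)) (e - 1)) ∧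
    (∀ z : K, (∀ v ∈ S, v z ≤ 1) →
      ∃ s : MvPolynomial (Fin n) k, ¬ p ∣ s ∧ ∃ b : B, algebraMap _ K s * z = algebraMap B K b) ∧
    (∀ z : K, (∀ v ∈ S, v (algebraMap _ K p * z) < 1) →
      ∃ s : MvPolynomial (Fin n) k, ¬ p ∣ s ∧ ∃ a : MvPolynomial (Fin n) k,
        algebraMap _ F s * Algebra.trace F K z = algebraMap _ F a) ∧
    (∀ z : K, (∀ b : B, ∃ a : MvPolynomial (Fin n) k,
      algebraMap _ F a = Algebra.trace F K (z * algebraMap B K b)) →
      ∀ v ∈ S, v (algebraMap _ K p * z) < 1) := by
  have hpI : (Ideal.span {p}).IsPrime := (Ideal.span_singleton_prime hp.ne_zero).2 hp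
  have hcF : CharZero F := charZero_of_injective_algebraMap (algebraMap k F).injective
  let O := Localization.subalgebra.ofField F (Ideal.span {p}).primeCompl
    (Ideal.primeCompl_le_nonZeroDivisors _)
  have h1 : IsLocalization.AtPrime O (Ideal.span {p}) :=
    Localization.subalgebra.isLocalization_ofField F _ _
  have h2 : IsFractionRing O F := Localization.subalgebra.isFractionRing_ofField F _ _
  have h3 : IsLocalRing O := IsLocalization.AtPrime.isLocalRing O (Ideal.span {p})
  have h4 : IsNoetherianRing O :=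
    IsLocalization.isNoetherianRing (Ideal.span {p}).primeCompl O inferInstance
  have h5 : IsLocalRing.maximalIdeal O = Ideal.span {algebraMap _ O p} := by
    rw [← IsLocalization.AtPrime.map_eq_maximalIdeal (Ideal.span {p}) O, Ideal.map_span,
      Set.image_singleton]
  have h6 : algebraMap (MvPolynomial (Fin n) k) O p ≠ 0 := by
    intro h
    apply hp.ne_zero
    have h7 : Function.Injective (algebraMap (MvPolynomial (Fin n) k) O) :=
      IsLocalization.injective O (Ideal.primeCompl_le_nonZeroDivisors (Ideal.span {p}))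
    exact h7 (by rw [h, map_zero])
  have h7 : IsDiscreteValuationRing O := by
    refine ((IsDiscreteValuationRing.TFAE O ?_).out 4 0).1 ?_
    · rw [IsLocalRing.isField_iff_maximalIdeal_eq, h5, Ideal.span_singleton_eq_bot]
      exact h6
    · rw [h5]
      exact ⟨⟨_, rfl⟩⟩
  let C := integralClosure O K
  have h8 : IsDedekindDomain C := integralClosure.isDedekindDomain O F K
  have h9 : IsFractionRing C K := integralClosure.isFractionRing_of_finite_extension F K
  have h10 : Module.Finite O C := IsIntegralClosure.finite O F K C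
  obtain ⟨k1, k2, k3, k4, k5⟩ := one_prime (B := B) (F := F) (K := K) p hp O C
  refine ⟨Set.range fun Q : HeightOneSpectrum C => Q.valuation K, Set.finite_range _, ?_, ?_, ?_,
    ?_⟩
  · rintro _ ⟨Q, rfl⟩
    exact k1 Q
  · intro z hz
    exact k3 z fun Q => hz _ ⟨Q, rfl⟩
  · intro z hz
    exact k4 z fun Q => hz _ ⟨Q, rfl⟩
  · rintro z hz _ ⟨Q, rfl⟩
    exact k5 z hz Q

variable (F) in
include F in
/-- an element of all localizations of `B` at primes of `k[X]` is in `B` -/
theorem mem_B_of_local (t : K) (h : ∀ p : MvPolynomial (Fin n) k, Prime p → rep p = p →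
    ∃ s, ¬ p ∣ s ∧ ∃ b : B, algebraMap (MvPolynomial (Fin n) k) K s * t = algebraMap B K b) :
    ∃ b : B, algebraMap B K b = t := by
  have htF : IsIntegral F t := Algebra.IsIntegral.isIntegral t
  set m := minpoly F t with hm
  have h1 : ∀ i, ∃ a, algebraMap (MvPolynomial (Fin n) k) F a = m.coeff i := by
    intro i
    rcases lt_or_ge m.natDegree i with hi | hi
    · exact ⟨0, by rw [map_zero, Polynomial.coeff_eq_zero_of_natDegree_lt hi]⟩
    apply mem_of_local
    intro p hp hrep
    obtain ⟨s, hs, b, hb⟩ := h p hp hrep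
    have hbi : IsIntegral (MvPolynomial (Fin n) k) (algebraMap B K b) :=
      (Algebra.IsIntegral.isIntegral b).map
        (IsScalarTower.toAlgHom (MvPolynomial (Fin n) k) B K)
    have h2 := minpoly.isIntegrallyClosed_eq_field_fractions' (S := K) F hbi
    have h3 : algebraMap B K b = algebraMap (MvPolynomial (Fin n) k) F s • t := by
      rw [← hb, Algebra.smul_def, ← IsScalarTower.algebraMap_apply]
    have hs0 : algebraMap (MvPolynomial (Fin n) k) F s ≠ 0 := by
      intro h0
      apply hs
      have h4 : s = 0 := IsFractionRing.injective (MvPolynomial (Fin n) k) F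
        (by rw [h0, map_zero])
      rw [h4]
      exact dvd_zero p
    rw [h3, IsIntegrallyClosed.minpoly_smul hs0 htF, ← hm] at h2
    refine ⟨s ^ (m.natDegree - i), fun h4 => hs (hp.dvd_of_dvd_pow h4),
      (minpoly (MvPolynomial (Fin n) k) (algebraMap (MvPolynomial (Fin n) k) F s • t)).coeff i, ?_⟩
    have h5 := congrArg (fun q : Polynomial F => q.coeff i) h2
    simp only [Polynomial.coeff_scaleRoots, Polynomial.coeff_map] at h5
    rw [map_pow, mul_comm, h5]
  have hlift : m ∈ Polynomial.lifts (algebraMap (MvPolynomial (Fin n) k) F) := by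
    rw [Polynomial.lifts_iff_coeff_lifts]
    intro i
    obtain ⟨a, ha⟩ := h1 i
    exact ⟨a, ha⟩
  obtain ⟨q, hq, -, hmon⟩ := Polynomial.lifts_and_natDegree_eq_and_monic hlift (minpoly.monic htF)
  have htP : IsIntegral (MvPolynomial (Fin n) k) t := by
    refine ⟨q, hmon, ?_⟩
    have h2 : Polynomial.aeval t m = 0 := minpoly.aeval F t
    rw [← hq, Polynomial.aeval_def, Polynomial.eval₂_map,
      ← IsScalarTower.algebraMap_eq] at h2
    exact h2
  exact (IsIntegralClosure.isIntegral_iff (A := B)).1 htP

variable (F) in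
include F in
theorem exists_num (u : K) : ∃ s : MvPolynomial (Fin n) k, s ≠ 0 ∧
    ∃ b : B, algebraMap _ K s * u = algebraMap B K b := by
  have : IsLocalization (Algebra.algebraMapSubmonoid B (nonZeroDivisors (MvPolynomial (Fin n) k)))
    K := IsIntegralClosure.isLocalization (MvPolynomial (Fin n) k) F K B
  obtain ⟨⟨b, _, s, hs, rfl⟩, h⟩ := IsLocalization.surj
    (Algebra.algebraMapSubmonoid B (nonZeroDivisors (MvPolynomial (Fin n) k))) u
  refine ⟨s, nonZeroDivisors.ne_zero hs, b, ?_⟩
  rw [← h, IsScalarTower.algebraMap_apply (MvPolynomial (Fin n) k) B K, mul_comm]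

variable (F) in
include F in
theorem exists_den {x : Ideal B}
    (hx : x.IsPrime) (S : MvPolynomial (Fin n) k → Set (Valuation K ℤᵐ⁰))
    (hfin : ∀ p, Prime p → (S p).Finite)
    (hB : ∀ p, Prime p → ∀ v ∈ S p, ∀ b : B, v (algebraMap B K b) ≤ 1)
    (h1 : ∀ p, Prime p → ∀ v ∈ S p, ∀ s : MvPolynomial (Fin n) k, ¬ p ∣ s →
      v (algebraMap _ K s) = 1) (u : K) :
    ∃ b : B, b ∉ x ∧ ∀ p, Prime p → rep p = p → ∀ v ∈ S p, ¬ CentreIn x v →
      v (algebraMap B K b * u) ≤ 1 := by
  have hinj : Function.Injective (algebraMap (MvPolynomial (Fin n) k) K) := by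
    rw [IsScalarTower.algebraMap_eq (MvPolynomial (Fin n) k) F K]
    exact (algebraMap F K).injective.comp (IsFractionRing.injective _ F)
  obtain ⟨s, hs, b', hb'⟩ := exists_num (k := k) (n := n) (B := B) F u
  obtain ⟨b, hb, hb2⟩ := exists_den_poly hinj hx S hfin hB h1 s hs
  refine ⟨b, hb, ?_⟩
  intro p hp hrep v hv hc
  calc v (algebraMap B K b * u) = v (algebraMap B K b) * v u := map_mul _ _ _
    _ ≤ v (algebraMap _ K s) * v u := mul_le_mul' (hb2 p hp hrep v hv hc) le_rfl
    _ = v (algebraMap B K b') := by rw [← map_mul, hb']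
    _ ≤ 1 := hB p hp v hv b'

/-- If `Tr (z b)` is a polynomial for all `b`, then `z ^ r h` is regular at `x`. -/
theorem canon_trace_pow (x : Ideal B) [x.IsPrime] (r : ℕ) (h : K)
    (hh : IsRCanonicalAt k x (fun i => algebraMap (MvPolynomial (Fin n) k) K (X i)) r h) (z : K)
    (hz : ∀ b : B, ∃ p : MvPolynomial (Fin n) k,
      algebraMap (MvPolynomial (Fin n) k) F p = Algebra.trace F K (z * algebraMap B K b)) :
    ∃ b₁ : B, b₁ ∉ x ∧ ∃ b₂ : B, algebraMap B K b₁ * z ^ r * h = algebraMap B K b₂ := by
  have hpl := fun (p : MvPolynomial (Fin n) k) (hp : Prime p) =>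
    exists_places (B := B) (F := F) (K := K) p hp
  choose! S hfin h1 h2 h3 h4 using hpl
  obtain ⟨b₁, hb₁, hden⟩ := exists_den F (x := x) inferInstance S hfin
    (fun p hp v hv b => (h1 p hp v hv).1.nonneg b) (fun p hp v hv => (h1 p hp v hv).2.2.1)
    (z ^ r * h)
  have key : ∃ b : B, algebraMap B K b = algebraMap B K b₁ * z ^ r * h := by
    refine mem_B_of_local F _ fun p hp hrep => h2 p hp _ fun v hv => ?_
    obtain ⟨k1, k2, k3, k4, k5⟩ := h1 p hp v hv
    rw [mul_assoc]
    by_cases hc : CentreIn x v
    · have h0 : v (algebraMap _ K p) ≠ 0 := by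
        rw [Valuation.ne_zero_iff, IsScalarTower.algebraMap_apply _ F K]
        intro h
        exact hp.ne_zero (IsFractionRing.injective _ F ((algebraMap F K).injective
          (by rw [h, map_zero, map_zero])))
      obtain ⟨m, hm, hgm⟩ := hh.2 v k1 hc
      have he : v (algebraMap _ K p) = WithZero.exp (-(-WithZero.log (v (algebraMap _ K p)))) := by
        rw [neg_neg, WithZero.exp_log h0]
      have hme := hm.unique (k5 _ he)
      have h5 := h4 p hp z hz v hv
      have hb1 : v (algebraMap B K b₁) ≤ 1 := k1.nonneg b₁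
      have h6 : v (z ^ r * h) ≤ 1 := by
        by_cases hz0 : v z = 0
        · rcases Nat.eq_zero_or_pos r with hr | hr
          · subst hr
            rw [pow_zero, one_mul, hgm]
            simp
          · rw [map_mul, map_pow, hz0, zero_pow hr.ne', zero_mul]
            exact zero_le_one
        · rw [map_mul, he, ← WithZero.exp_log hz0, ← WithZero.exp_add, ← WithZero.exp_zero,
            WithZero.exp_lt_exp] at h5
          rw [map_mul, map_pow, hgm, hme, ← WithZero.exp_log hz0, ← WithZero.exp_nsmul,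
            ← WithZero.exp_add, ← WithZero.exp_zero, WithZero.exp_le_exp, nsmul_eq_mul]
          have h7 : WithZero.log (v z) ≤
              -WithZero.log (v (algebraMap (MvPolynomial (Fin n) k) K p)) - 1 := by omega
          have h8 := mul_le_mul_of_nonneg_left h7 (Int.natCast_nonneg r)
          linarith
      rw [map_mul]
      calc v (algebraMap B K b₁) * v (z ^ r * h) ≤ 1 * 1 := mul_le_mul' hb1 h6
        _ = 1 := one_mul _
    · exact hden p hp hrep v hv hc
  obtain ⟨b₂, hb₂⟩ := key
  exact ⟨b₁, hb₁, b₂, hb₂.symm⟩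

end Pool.Agent.Odp3
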