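import Pool.Agent.Odp3.Pt.Bdd

/-!
# Basic facts on the coordinates `cf` and the trace `tr`
-/

open scoped ContDiff Topology ENNReal NNReal WithZero
open Set MeasureTheory Filter MvPolynomial Pool.Agent.ODP

namespace Pool.Agent.Odp3

variable {n d : ℕ} {B : Type} [CommRing B] [Algebra ℂ B] (G : Germ n d B)

theorem Germ.cf_spec (b : B) : aeval G.y G.D * b = ∑ i, aeval G.y (G.cf b i) * G.e i :=
  G.spec b

theorem Germ.tr_zero : G.tr 0 = 0 := by
  have h := G.tr_mul 0 0
  rwa [mul_zero, zero_mul] at h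

theorem Germ.tr_sum {ι : Type*} (s : Finset ι) (f : ι → B) :
    G.tr (∑ i ∈ s, f i) = ∑ i ∈ s, G.tr (f i) := by
  classical
  induction s using Finset.induction_on with
  | empty => simpa using G.tr_zero
  | insert a s ha ih => rw [Finset.sum_insert ha, Finset.sum_insert ha, G.tr_add, ih]

theorem Germ.cf_unique (b : B) (c : Fin d → MvPolynomial (Fin n) ℂ)
    (h : aeval G.y G.D * b = ∑ i, aeval G.y (c i) * G.e i) : c = G.cf b := by
  funext j
  have h1 : G.tr (G.du j * (aeval G.y G.D * b)) = G.D * G.cf b j := by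
    have h2 : G.du j * (aeval G.y G.D * b) = aeval G.y G.D * (G.du j * b) := by ring
    rw [h2, G.tr_mul]
    rfl
  rw [h, Finset.mul_sum, G.tr_sum] at h1
  have h3 : ∀ i, G.tr (G.du j * (aeval G.y (c i) * G.e i)) = if j = i then c i * G.D else 0 := by
    intro i
    have h2 : G.du j * (aeval G.y (c i) * G.e i) = aeval G.y (c i) * (G.du j * G.e i) := by ring
    rw [h2, G.tr_mul, G.tr_du]
    split_ifs <;> simp
  simp only [h3, Finset.sum_ite_eq, Finset.mem_univ, if_true] at h1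
  rw [mul_comm] at h1
  exact mul_left_cancel₀ G.D_ne h1

theorem Germ.cf_add (a b : B) : G.cf (a + b) = G.cf a + G.cf b := by
  funext i
  rw [Pi.add_apply, Germ.cf, mul_add, G.tr_add]
  rfl

theorem Germ.cf_aeval_mul (p : MvPolynomial (Fin n) ℂ) (b : B) (i : Fin d) :
    G.cf (aeval G.y p * b) i = p * G.cf b i := by
  have h : G.du i * (aeval G.y p * b) = aeval G.y p * (G.du i * b) := by ring
  rw [Germ.cf, h, G.tr_mul]
  rfl

theorem Germ.cf_zero (i : Fin d) : G.cf 0 i = 0 := by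
  rw [Germ.cf, mul_zero, G.tr_zero]

theorem Germ.cf_sum {ι : Type*} (s : Finset ι) (f : ι → B) (i : Fin d) :
    G.cf (∑ j ∈ s, f j) i = ∑ j ∈ s, G.cf (f j) i := by
  rw [Germ.cf, Finset.mul_sum, G.tr_sum]
  rfl

theorem Germ.cf_e (i j : Fin d) : G.cf (G.e i) j = if j = i then G.D else 0 :=
  G.tr_du j i

/-- `b ↦ cf b` is injective if `B` is a domain. -/
theorem Germ.cf_inj [IsDomain B] {b : B} (h : ∀ i, G.cf b i = 0) : b = 0 := by
  have h1 := G.cf_spec b
  rw [Finset.sum_eq_zero fun i _ => by rw [h i, map_zero, zero_mul]] at h1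
  rcases mul_eq_zero.1 h1 with h2 | h2
  · exact absurd (G.inj (h2.trans (map_zero _).symm)) G.D_ne
  · exact h2

theorem Germ.apply_cf (χ : Pt B) (b : B) :
    eval (proj G.y χ) G.D * χ b = ∑ i, eval (proj G.y χ) (G.cf b i) * χ (G.e i) := by
  have h := congrArg χ (G.cf_spec b)
  rw [map_mul, bdd_aeval, map_sum] at h
  rw [h]
  refine Finset.sum_congr rfl fun i _ => ?_
  rw [map_mul, bdd_aeval]

/-- the coordinates are the sums over the fibre -/
theorem Germ.cf_pt {w : Fin n → ℂ} (hw : eval w G.D ≠ 0) (S : Finset (Pt B))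
    (hS : ∀ χ, χ ∈ S ↔ proj G.y χ = w) (b : B) (i : Fin d) :
    ∑ χ ∈ S, χ (G.du i) * χ b = eval w (G.cf b i) := by
  rw [Germ.cf, ← G.tr_pt w hw S hS]
  exact Finset.sum_congr rfl fun χ _ => (map_mul χ _ _).symm

theorem Germ.finite_fibre {w : Fin n → ℂ} (hw : eval w G.D ≠ 0) (hd : 0 < d) :
    {χ : Pt B | proj G.y χ = w}.Finite := by
  refine Set.finite_of_ncard_pos ?_
  rw [G.card w hw]
  exact hd

/-- generators of `B` over the polynomial ring -/
theorem Germ.exists_gen : ∃ (k : ℕ) (E : Fin k → B), ∀ b, ∃ c : Fin k → MvPolynomial (Fin n) ℂ,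
    b = ∑ i, aeval G.y (c i) * E i := by
  let _ : Algebra (MvPolynomial (Fin n) ℂ) B :=
    (aeval G.y : MvPolynomial (Fin n) ℂ →ₐ[ℂ] B).toRingHom.toAlgebra
  have hfin : Module.Finite (MvPolynomial (Fin n) ℂ) B := G.fin
  obtain ⟨k, E, hE⟩ := Module.Finite.exists_fin (R := MvPolynomial (Fin n) ℂ) (M := B)
  refine ⟨k, E, fun b => ?_⟩
  have h1 : b ∈ Submodule.span (MvPolynomial (Fin n) ℂ) (Set.range E) := by rw [hE]; trivial
  obtain ⟨c, hc⟩ := (Submodule.mem_span_range_iff_exists_fun (MvPolynomial (Fin n) ℂ)).1 h1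
  exact ⟨c, hc.symm⟩

end Pool.Agent.Odp3
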