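import Pool.Agent.Odp3.Defs
import Pool.Agent.Odp2.Free.FibCo
import Pool.Agent.Odp2.Free.Basis

open scoped ContDiff Topology ENNReal NNReal WithZero nonZeroDivisors
open Set MeasureTheory Filter MvPolynomial Pool.Agent.ODP

namespace Pool.Agent.Odp3

theorem germ_eval {n : ℕ} {B : Type} [CommRing B] [Algebra ℂ B] {y : Fin n → B}
    {w : Fin n → ℂ} {χ : Pt B} (hχ : proj y χ = w) (p : MvPolynomial (Fin n) ℂ) :
    χ (aeval y p) = eval w p := by
  have h1 : χ.comp (aeval y : MvPolynomial (Fin n) ℂ →ₐ[ℂ] B) = aeval w := by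
    apply MvPolynomial.algHom_ext
    intro j
    rw [AlgHom.comp_apply, aeval_X, aeval_X, ← hχ]
    rfl
  have h2 := DFunLike.congr_fun h1 p
  rw [AlgHom.comp_apply] at h2
  rw [h2, ← MvPolynomial.coe_aeval_eq_eval]
  rfl

theorem germ_sub_mem {n : ℕ} {B : Type} [CommRing B] [Algebra ℂ B] (y : Fin n → B)
    (w : Fin n → ℂ) (p : MvPolynomial (Fin n) ℂ) :
    aeval y p - algebraMap ℂ B (eval w p) ∈
      Ideal.span (Set.range fun j => y j - algebraMap ℂ B (w j)) := by
  set I := Ideal.span (Set.range fun j => y j - algebraMap ℂ B (w j)) with hI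
  rw [← Ideal.Quotient.eq]
  have h : ((Ideal.Quotient.mkₐ ℂ I).comp (aeval y : MvPolynomial (Fin n) ℂ →ₐ[ℂ] B)) =
      (Algebra.ofId ℂ (B ⧸ I)).comp (aeval w) := by
    apply MvPolynomial.algHom_ext
    intro j
    rw [AlgHom.comp_apply, AlgHom.comp_apply, aeval_X, aeval_X]
    change Ideal.Quotient.mk I (y j) = Ideal.Quotient.mk I (algebraMap ℂ B (w j))
    rw [Ideal.Quotient.eq]
    exact Ideal.subset_span ⟨j, rfl⟩
  have h2 := DFunLike.congr_fun h p
  rw [AlgHom.comp_apply, AlgHom.comp_apply] at h2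
  have h3 : (aeval w p : ℂ) = eval w p := by
    rw [← MvPolynomial.coe_aeval_eq_eval]
    rfl
  rw [h3] at h2
  exact h2

theorem exists_germ {n : ℕ} {B : Type} [CommRing B] [IsDomain B] [IsIntegrallyClosed B]
    [Algebra ℂ B] (y : Fin n → B)
    (hfin : (aeval y : MvPolynomial (Fin n) ℂ →ₐ[ℂ] B).toRingHom.Finite)
    (hinj : Function.Injective (aeval y : MvPolynomial (Fin n) ℂ →ₐ[ℂ] B)) :
    ∃ d, 0 < d ∧ ∃ G : Germ n d B, G.y = y := by
  classical
  let : Algebra (MvPolynomial (Fin n) ℂ) B :=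
    (MvPolynomial.aeval y : MvPolynomial (Fin n) ℂ →ₐ[ℂ] B).toRingHom.toAlgebra
  have hmod : Module.Finite (MvPolynomial (Fin n) ℂ) B := hfin
  have hsmul : ∀ (p : MvPolynomial (Fin n) ℂ) (x : B), p • x = aeval y p * x :=
    fun p x => Algebra.smul_def p x
  obtain ⟨d, e, tr, T, hd, hT, hdet, hind, hspec, htrace⟩ :=
    Odp2.free_basis (A := MvPolynomial (Fin n) ℂ) (B := B) hinj
  set D := T.det with hD
  let u : Fin d → B := fun i => ∑ k, T.adjugate i k • e k
  have htr_du : ∀ i j, tr (u i * e j) = if i = j then D else 0 := by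
    intro i j
    change tr ((∑ k, T.adjugate i k • e k) * e j) = _
    rw [Finset.sum_mul, map_sum]
    have h1 : ∀ k, tr ((T.adjugate i k • e k) * e j) = T.adjugate i k * T k j := by
      intro k
      rw [smul_mul_assoc, map_smul, smul_eq_mul, hT]
    rw [Finset.sum_congr rfl fun k _ => h1 k, ← Matrix.mul_apply, Matrix.adjugate_mul,
      Matrix.smul_apply, Matrix.one_apply]
    split_ifs
    · rw [smul_eq_mul, mul_one]
    · rw [smul_zero]
  -- the coordinates at a point where `D ≠ 0`
  have hco : ∀ w, eval w D ≠ 0 → ∃ G0 : Odp2.FibCo n d B, G0.y = y ∧ G0.e = e ∧ G0.w = w ∧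
      ∀ b i, G0.cw b i = (eval w D)⁻¹ * eval w (tr (u i * b)) := by
    intro w hw
    let cw : B →ₗ[ℂ] (Fin d → ℂ) :=
      { toFun := fun b i => (eval w D)⁻¹ * eval w (tr (u i * b))
        map_add' := by
          intro a b
          funext i
          rw [Pi.add_apply, mul_add, map_add, map_add, mul_add]
        map_smul' := by
          intro c b
          funext i
          have h : u i * c • b = (C c : MvPolynomial (Fin n) ℂ) • (u i * b) := by
            rw [hsmul, aeval_C, mul_smul_comm, Algebra.smul_def]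
          rw [h, map_smul, smul_eq_mul, map_mul, eval_C, RingHom.id_apply, Pi.smul_apply,
            smul_eq_mul]
          ring }
    have hcw : ∀ b i, cw b i = (eval w D)⁻¹ * eval w (tr (u i * b)) := fun _ _ => rfl
    refine ⟨⟨y, e, w, cw, ?_, ?_, ?_⟩, rfl, rfl, rfl, hcw⟩
    · intro j b
      funext i
      have h : u i * (y j * b) = (X j : MvPolynomial (Fin n) ℂ) • (u i * b) := by
        rw [hsmul, aeval_X]
        ring
      rw [hcw, h, map_smul, smul_eq_mul, map_mul, eval_X, Pi.smul_apply, smul_eq_mul, hcw]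
      ring
    · intro i
      funext j
      rw [hcw, htr_du]
      rcases eq_or_ne j i with h | h
      · subst h
        rw [if_pos rfl, inv_mul_cancel₀ hw, Pi.single_eq_same]
      · rw [if_neg h, map_zero, mul_zero, Pi.single_eq_of_ne h]
    · intro b
      have h1 : b - ∑ i, cw b i • e i = algebraMap ℂ B ((eval w D)⁻¹) *
          (∑ i, (aeval y (tr (u i * b)) - algebraMap ℂ B (eval w (tr (u i * b)))) * e i -
            (aeval y D - algebraMap ℂ B (eval w D)) * b) := by
        have h2 : aeval y D * b = ∑ i, aeval y (tr (u i * b)) * e i := by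
          rw [← hsmul, hspec b]
          exact Finset.sum_congr rfl fun i _ => hsmul _ _
        have h3 : ∑ i, cw b i • e i = algebraMap ℂ B ((eval w D)⁻¹) *
            ∑ i, algebraMap ℂ B (eval w (tr (u i * b))) * e i := by
          rw [Finset.mul_sum]
          refine Finset.sum_congr rfl fun i _ => ?_
          rw [hcw, Algebra.smul_def, map_mul, mul_assoc]
        have h4 : algebraMap ℂ B ((eval w D)⁻¹) * (algebraMap ℂ B (eval w D) * b) = b := by
          rw [← mul_assoc, ← map_mul, inv_mul_cancel₀ hw, map_one, one_mul]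
        rw [h3]
        simp only [sub_mul, Finset.sum_sub_distrib]
        rw [← h2]
        linear_combination (-1 : B) * h4
      rw [h1]
      refine Ideal.mul_mem_left _ _ (Ideal.sub_mem _ (Ideal.sum_mem _ fun i _ =>
        Ideal.mul_mem_right _ _ (germ_sub_mem y w _)) (Ideal.mul_mem_right _ _ (germ_sub_mem y w _)))
  -- the trace at a point
  have hmw : ∀ (w : Fin n → ℂ) (hw : eval w D ≠ 0) (G0 : Odp2.FibCo n d B), G0.e = e →
      (∀ b i, G0.cw b i = (eval w D)⁻¹ * eval w (tr (u i * b))) →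
      ∀ b, (G0.mw b).trace = eval w (tr b) := by
    intro w hw G0 he hcw b
    have h1 := congrArg (eval w) (htrace b)
    rw [map_mul, map_sum] at h1
    have h2 : (G0.mw b).trace = (eval w D)⁻¹ * ∑ i, eval w (tr (u i * (b * e i))) := by
      rw [Matrix.trace, Finset.mul_sum]
      refine Finset.sum_congr rfl fun i _ => ?_
      rw [Matrix.diag_apply]
      change G0.cw (b * G0.e i) i = _
      rw [hcw, he]
    rw [h2]
    change _ = eval w (tr b)
    rw [← h1, ← mul_assoc, inv_mul_cancel₀ hw, one_mul]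
  have hTw : ∀ (w : Fin n → ℂ) (hw : eval w D ≠ 0) (G0 : Odp2.FibCo n d B), G0.e = e →
      (∀ b i, G0.cw b i = (eval w D)⁻¹ * eval w (tr (u i * b))) →
      G0.T = (eval w).mapMatrix T := by
    intro w hw G0 he hcw
    ext i j
    rw [RingHom.mapMatrix_apply, Matrix.map_apply, hT]
    change (G0.mw (G0.e i * G0.e j)).trace = _
    rw [hmw w hw G0 he hcw, he]
  refine ⟨d, hd, ⟨{
    y := y
    fin := hfin
    inj := hinj
    e := e
    du := u
    D := D
    D_ne := hdet
    tr := tr
    tr_add := fun b c => map_add tr b c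
    tr_mul := fun p b => by rw [← hsmul, map_smul, smul_eq_mul]
    tr_du := htr_du
    spec := fun b => by
      rw [← hsmul, hspec b]
      exact Finset.sum_congr rfl fun i _ => hsmul _ _
    card := ?_
    tr_pt := ?_
    du_spec := ?_ }, rfl⟩⟩
  · intro w hw
    obtain ⟨G0, hy, he, hw0, hcw⟩ := hco w hw
    have h1 : G0.T.det ≠ 0 := by
      rw [hTw w hw G0 he hcw, ← RingHom.map_det]
      exact hw
    have h2 := G0.card_Fb h1
    rw [Odp2.FibCo.Fb, hy, hw0] at h2
    exact h2
  · intro w hw S hS b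
    obtain ⟨G0, hy, he, hw0, hcw⟩ := hco w hw
    have h1 : G0.T.det ≠ 0 := by
      rw [hTw w hw G0 he hcw, ← RingHom.map_det]
      exact hw
    rw [← hmw w hw G0 he hcw b]
    exact (Odp2.FibCo.trace_mw G0 (hT := h1) S (fun χ => by rw [hy, hw0]; exact hS χ) b).symm
  · intro w hw χ χ' hχ hχ'
    obtain ⟨G0, hy, he, hw0, hcw⟩ := hco w hw
    have hTe := hTw w hw G0 he hcw
    have h1 : G0.T.det ≠ 0 := by
      rw [hTe, ← RingHom.map_det]
      exact hw
    have h2 := G0.du_eq h1 (χ := χ) (χ' := χ') (by rw [hy, hw0]; exact hχ)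
      (by rw [hy, hw0]; exact hχ')
    have h3 : ∀ i, χ (u i) = ∑ k, G0.T.adjugate i k * χ (G0.e k) := by
      intro i
      rw [hTe, ← RingHom.map_adjugate, he]
      change χ (∑ k, T.adjugate i k • e k) = _
      rw [map_sum]
      refine Finset.sum_congr rfl fun k _ => ?_
      rw [hsmul, map_mul, germ_eval hχ]
      rfl
    have h4 : G0.T.det = eval w D := by
      rw [hTe, ← RingHom.map_det]
    rw [h4, he] at h2
    rw [he] at h3
    simp only [h3]
    exact h2

/-- the discriminant may be enlarged; so we may assume `h ≠ 0` on `D ≠ 0`. -/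
theorem Germ.exists_nz {n d : ℕ} {B : Type} [CommRing B] [IsDomain B] [Algebra ℂ B]
    (G : Germ n d B) {h : B} (hh : h ≠ 0) : ∃ G' : Germ n d B, G'.y = G.y ∧
      ∀ χ : Pt B, eval (proj G.y χ) G'.D ≠ 0 → χ h ≠ 0 := by
  classical
  obtain ⟨N, hN, c, hc⟩ : ∃ N : MvPolynomial (Fin n) ℂ, N ≠ 0 ∧ h ∣ aeval G.y N := by
    let : Algebra (MvPolynomial (Fin n) ℂ) B :=
      (MvPolynomial.aeval G.y : MvPolynomial (Fin n) ℂ →ₐ[ℂ] B).toRingHom.toAlgebra
    have hfin : Module.Finite (MvPolynomial (Fin n) ℂ) B := G.fin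
    have hint : IsIntegral (MvPolynomial (Fin n) ℂ) h := Algebra.IsIntegral.isIntegral h
    exact hint.isAlgebraic.exists_nonzero_dvd (mem_nonZeroDivisors_of_ne_zero hh)
  refine ⟨{ G with
    D := N * G.D
    D_ne := mul_ne_zero hN G.D_ne
    du := fun i => aeval G.y N * G.du i
    tr_du := ?_
    spec := ?_
    card := ?_
    tr_pt := ?_
    du_spec := ?_ }, rfl, ?_⟩
  · intro i j
    rw [mul_assoc, G.tr_mul, G.tr_du i j]
    split_ifs
    · rfl
    · rw [mul_zero]
  · intro b
    rw [map_mul, mul_assoc, G.spec b, Finset.mul_sum]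
    refine Finset.sum_congr rfl fun i _ => ?_
    rw [mul_assoc, G.tr_mul, map_mul, mul_assoc]
  · intro w hw
    rw [map_mul] at hw
    exact G.card w (right_ne_zero_of_mul hw)
  · intro w hw
    rw [map_mul] at hw
    exact G.tr_pt w (right_ne_zero_of_mul hw)
  · intro w hw χ χ' hχ hχ'
    rw [map_mul] at hw ⊢
    obtain ⟨h1, h2⟩ := G.du_spec w (right_ne_zero_of_mul hw) χ χ' hχ hχ'
    have h3 : ∑ i, χ (aeval G.y N * G.du i) * χ' (G.e i) =
        eval w N * ∑ i, χ (G.du i) * χ' (G.e i) := by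
      rw [Finset.mul_sum]
      refine Finset.sum_congr rfl fun i _ => ?_
      rw [map_mul, germ_eval hχ, mul_assoc]
    rw [h3]
    exact ⟨fun h => by rw [h1 h], fun h => by rw [h2 h, mul_zero]⟩
  · intro χ hχ h0
    apply hχ
    have h1 := germ_eval (y := G.y) (χ := χ) rfl N
    rw [hc, map_mul, h0, zero_mul] at h1
    change eval (proj G.y χ) (N * G.D) = 0
    rw [map_mul, ← h1, zero_mul]

end Pool.Agent.Odp3
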