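import Pool.Agent.Odp3.Coord

/-!
# Coordinates at a point

Every affine domain has, at each of its points, a Noether normalization which is also a reduction
of the maximal ideal of the point.
-/

open MvPolynomial Pool.Agent.ODP

namespace Pool.Agent.Odp3

theorem noe_ind {σ : Type*} (P : (σ →₀ ℕ) → Prop) (h0 : P 0)
    (h1 : ∀ m i, P m → P (m + Finsupp.single i 1)) (m : σ →₀ ℕ) : P m := by
  classical
  induction h : m.degree generalizing m with
  | zero =>
    rw [Finsupp.degree_eq_zero_iff] at h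
    rw [h]
    exact h0
  | succ D ih =>
    obtain ⟨i, hi⟩ : ∃ i, m i ≠ 0 := by
      by_contra! hc
      have : m = 0 := Finsupp.ext hc
      rw [this] at h
      simp at h
    have hm : m - Finsupp.single i 1 + Finsupp.single i 1 = m :=
      tsub_add_cancel_of_le (by simpa using Nat.one_le_iff_ne_zero.2 hi)
    rw [← hm]
    refine h1 _ _ (ih _ ?_)
    rw [← hm, map_add, Finsupp.degree_single] at h
    omega

theorem noe_sup_pow {R : Type*} [CommRing R] (a b : Ideal R) (L : ℕ) :
    (a ⊔ b) ^ (L + 1) ≤ a * (a ⊔ b) ^ L ⊔ b ^ (L + 1) := by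
  induction L with
  | zero => simp
  | succ L ih =>
    have h1 : b ^ (L + 1) ≤ (a ⊔ b) ^ (L + 1) := Ideal.pow_right_mono le_sup_right _
    calc (a ⊔ b) ^ (L + 1 + 1) = (a ⊔ b) ^ (L + 1) * (a ⊔ b) := pow_succ _ _
      _ ≤ (a * (a ⊔ b) ^ L ⊔ b ^ (L + 1)) * (a ⊔ b) := Ideal.mul_mono_left ih
      _ = a * (a ⊔ b) ^ (L + 1) ⊔ b ^ (L + 1) * (a ⊔ b) := by
        rw [Ideal.sup_mul, pow_succ (a ⊔ b) L, mul_assoc]
      _ = a * (a ⊔ b) ^ (L + 1) ⊔ (b ^ (L + 1) * a ⊔ b ^ (L + 1) * b) := by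
        rw [Ideal.mul_sup (b ^ (L + 1))]
      _ ≤ _ := by
        refine sup_le le_sup_left (sup_le ?_ ?_)
        · refine le_trans ?_ le_sup_left
          rw [mul_comm]
          exact Ideal.mul_mono_right h1
        · rw [← pow_succ]
          exact le_sup_right

/-- the reduction step in a local ring -/
theorem noe_red {R : Type*} [CommRing R] [IsLocalRing R] [IsNoetherianRing R] {I I' : Ideal R}
    {y₀ : R} (hI : I = I' ⊔ Ideal.span {y₀}) (hm : I ≤ IsLocalRing.maximalIdeal R) {L N : ℕ}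
    (h0 : y₀ ^ (L + 1) ∈ I' * I ^ L ⊔ I ^ (L + 2))
    (hN : IsLocalRing.maximalIdeal R ^ (N + 1) ≤ I * IsLocalRing.maximalIdeal R ^ N) :
    IsLocalRing.maximalIdeal R ^ (N + L + 1) ≤ I' * IsLocalRing.maximalIdeal R ^ (N + L) := by
  set M := IsLocalRing.maximalIdeal R with hM
  have h1 : I ^ (L + 1) ≤ I' * I ^ L ⊔ M • I ^ (L + 1) := by
    have h2 : I ^ (L + 1) ≤ I' * I ^ L ⊔ Ideal.span {y₀} ^ (L + 1) := by
      have := noe_sup_pow I' (Ideal.span {y₀}) L
      rwa [← hI] at this
    refine h2.trans (sup_le le_sup_left ?_)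
    rw [Ideal.span_singleton_pow, Ideal.span_singleton_le_iff_mem]
    refine (sup_le_sup le_rfl ?_ : I' * I ^ L ⊔ I ^ (L + 2) ≤ _) h0
    rw [smul_eq_mul, pow_succ' I (L + 1)]
    exact Ideal.mul_mono_left hm
  have h3 : I ^ (L + 1) ≤ I' * I ^ L := by
    refine Submodule.le_of_le_smul_of_le_jacobson_bot (I := M) (IsNoetherian.noetherian _) ?_ h1
    rw [IsLocalRing.jacobson_eq_maximalIdeal ⊥ bot_ne_top]
  have h4 : ∀ j, M ^ (N + j) ≤ I ^ j * M ^ N := by
    intro j
    induction j with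
    | zero => simp
    | succ j ih =>
      calc M ^ (N + (j + 1)) = M ^ (N + 1) * M ^ j := by rw [← pow_add]; congr 1; omega
        _ ≤ I * M ^ N * M ^ j := Ideal.mul_mono_left hN
        _ = I * M ^ (N + j) := by rw [mul_assoc, ← pow_add]
        _ ≤ I * (I ^ j * M ^ N) := Ideal.mul_mono_right ih
        _ = _ := by rw [← mul_assoc, ← pow_succ']
  calc M ^ (N + L + 1) ≤ I ^ (L + 1) * M ^ N := h4 (L + 1)
    _ ≤ I' * I ^ L * M ^ N := Ideal.mul_mono_left h3
    _ ≤ I' * M ^ L * M ^ N := Ideal.mul_mono_left (Ideal.mul_mono_right (Ideal.pow_right_mono hm _))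
    _ = _ := by rw [mul_assoc, ← pow_add, add_comm L N]

section

variable {B : Type*} [CommRing B] [Algebra ℂ B] {k : ℕ}

/-- the new coordinates -/
def noeY (y : Fin (k + 1) → B) (c : Fin k → ℂ) : Fin k → B :=
  fun i => y i.succ - algebraMap ℂ B (c i) * y 0

/-- the direction of projection -/
def noeC (c : Fin k → ℂ) : Fin (k + 1) → ℂ := Fin.cons 1 c

theorem noe_diff (y : Fin (k + 1) → B) (c : Fin k → ℂ) (i : Fin (k + 1)) :
    y i - algebraMap ℂ B (noeC c i) * y 0 = 0 ∨
      ∃ j, y i - algebraMap ℂ B (noeC c i) * y 0 = noeY y c j := by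
  refine Fin.cases ?_ (fun j => ?_) i
  · left
    simp [noeC]
  · right
    exact ⟨j, by simp [noeC, noeY]⟩

theorem noe_mem (y : Fin (k + 1) → B) (c : Fin k → ℂ) (i : Fin (k + 1)) :
    y i - algebraMap ℂ B (noeC c i) * y 0 ∈ Ideal.span (Set.range (noeY y c)) := by
  rcases noe_diff y c i with h | ⟨j, h⟩
  · rw [h]; exact Ideal.zero_mem _
  · rw [h]; exact Ideal.subset_span ⟨j, rfl⟩

theorem noe_span (y : Fin (k + 1) → B) (c : Fin k → ℂ) :
    Ideal.span (Set.range y) = Ideal.span (Set.range (noeY y c)) ⊔ Ideal.span {y 0} := by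
  apply le_antisymm
  · rw [Ideal.span_le]
    rintro _ ⟨i, rfl⟩
    have h : y i = (y i - algebraMap ℂ B (noeC c i) * y 0) + algebraMap ℂ B (noeC c i) * y 0 := by
      ring
    rw [h]
    exact Ideal.add_mem _ (Ideal.mem_sup_left (noe_mem y c i))
      (Ideal.mem_sup_right (Ideal.mul_mem_left _ _ (Ideal.mem_span_singleton_self _)))
  · refine sup_le ?_ ?_
    · rw [Ideal.span_le]
      rintro _ ⟨i, rfl⟩
      exact Ideal.sub_mem _ (Ideal.subset_span ⟨_, rfl⟩)
        (Ideal.mul_mem_left _ _ (Ideal.subset_span ⟨_, rfl⟩))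
    · rw [Ideal.span_singleton_le_iff_mem]
      exact Ideal.subset_span ⟨_, rfl⟩

theorem noe_pow_mem (y : Fin (k + 1) → B) (m : Fin (k + 1) →₀ ℕ) :
    aeval y (monomial m (1 : ℂ)) ∈ Ideal.span (Set.range y) ^ m.degree := by
  refine noe_ind (fun m => aeval y (monomial m (1 : ℂ)) ∈ Ideal.span (Set.range y) ^ m.degree)
    ?_ (fun m i hm => ?_) m
  · simp
  · have h : (monomial (m + Finsupp.single i 1) (1 : ℂ)) = monomial m 1 * X i := by
      rw [X, monomial_mul, one_mul]
    rw [h, map_mul, aeval_X, map_add, Finsupp.degree_single, pow_succ]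
    exact Ideal.mul_mem_mul hm (Ideal.subset_span ⟨i, rfl⟩)

/-- a monomial in `y` modulo the new coordinates -/
theorem noe_monomial (y : Fin (k + 1) → B) (c : Fin k → ℂ) (m : Fin (k + 1) →₀ ℕ) :
    aeval y (monomial m (1 : ℂ)) -
      algebraMap ℂ B (eval (noeC c) (monomial m 1)) * y 0 ^ m.degree ∈
      Ideal.span (Set.range (noeY y c)) * Ideal.span (Set.range y) ^ (m.degree - 1) := by
  refine noe_ind (fun m => aeval y (monomial m (1 : ℂ)) -
      algebraMap ℂ B (eval (noeC c) (monomial m 1)) * y 0 ^ m.degree ∈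
      Ideal.span (Set.range (noeY y c)) * Ideal.span (Set.range y) ^ (m.degree - 1))
    ?_ (fun m i hm => ?_) m
  · simp
  · have h : (monomial (m + Finsupp.single i 1) (1 : ℂ)) = monomial m 1 * X i := by
      rw [X, monomial_mul, one_mul]
    rw [h, map_mul, aeval_X, map_add, Finsupp.degree_single, map_mul, eval_X, map_mul]
    have h1 : aeval y (monomial m (1 : ℂ)) * y i -
        algebraMap ℂ B (eval (noeC c) (monomial m 1)) * algebraMap ℂ B (noeC c i) *
          y 0 ^ (m.degree + 1) =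
        (aeval y (monomial m (1 : ℂ)) -
          algebraMap ℂ B (eval (noeC c) (monomial m 1)) * y 0 ^ m.degree) * y i +
        (y i - algebraMap ℂ B (noeC c i) * y 0) *
          (algebraMap ℂ B (eval (noeC c) (monomial m 1)) * y 0 ^ m.degree) := by
      ring
    rw [h1, Nat.add_sub_cancel]
    refine Ideal.add_mem _ ?_ ?_
    · rcases Nat.eq_zero_or_pos m.degree with h0 | h0
      · rw [Finsupp.degree_eq_zero_iff] at h0
        subst h0
        simp
      · have h2 := Ideal.mul_mem_mul hm (Ideal.subset_span ⟨i, rfl⟩ : y i ∈ Ideal.span (Set.range y))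
        rw [mul_assoc, ← pow_succ] at h2
        have h3 : m.degree - 1 + 1 = m.degree := by omega
        rwa [h3] at h2
    · refine Ideal.mul_mem_mul (noe_mem y c i) (Ideal.mul_mem_left _ _ (Ideal.pow_mem_pow ?_ _))
      exact Ideal.subset_span ⟨_, rfl⟩

/-- Combinations of the powers less than `D` of `y 0` with coefficients in the new polynomial
ring. -/
def NoeS (y : Fin (k + 1) → B) (c : Fin k → ℂ) (D : ℕ) (b : B) : Prop :=
  ∃ p : Polynomial (MvPolynomial (Fin k) ℂ), p.degree < D ∧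
    p.eval₂ (aeval (noeY y c) : MvPolynomial (Fin k) ℂ →ₐ[ℂ] B).toRingHom (y 0) = b

theorem NoeS.add {y : Fin (k + 1) → B} {c : Fin k → ℂ} {D : ℕ} {a b : B} (ha : NoeS y c D a)
    (hb : NoeS y c D b) : NoeS y c D (a + b) := by
  obtain ⟨p, hp, rfl⟩ := ha
  obtain ⟨q, hq, rfl⟩ := hb
  exact ⟨p + q, (Polynomial.degree_add_le _ _).trans_lt (max_lt hp hq), Polynomial.eval₂_add _ _⟩

theorem NoeS.zero (y : Fin (k + 1) → B) (c : Fin k → ℂ) (D : ℕ) : NoeS y c D 0 :=
  ⟨0, by rw [Polynomial.degree_zero]; exact WithBot.bot_lt_coe _, by simp⟩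

theorem NoeS.mono {y : Fin (k + 1) → B} {c : Fin k → ℂ} {D E : ℕ} {a : B} (ha : NoeS y c D a)
    (h : D ≤ E) : NoeS y c E a := by
  obtain ⟨p, hp, rfl⟩ := ha
  exact ⟨p, hp.trans_le (by exact_mod_cast h), rfl⟩

theorem NoeS.mul_aeval {y : Fin (k + 1) → B} {c : Fin k → ℂ} {D : ℕ} {a : B} (ha : NoeS y c D a)
    (q : MvPolynomial (Fin k) ℂ) : NoeS y c D (aeval (noeY y c) q * a) := by
  obtain ⟨p, hp, rfl⟩ := ha
  refine ⟨Polynomial.C q * p, ?_, ?_⟩
  · rcases eq_or_ne q 0 with rfl | hq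
    · simp
    · rw [Polynomial.degree_mul, Polynomial.degree_C hq, zero_add]
      exact hp
  · rw [Polynomial.eval₂_mul, Polynomial.eval₂_C]
    rfl

theorem NoeS.mul_y {y : Fin (k + 1) → B} {c : Fin k → ℂ} {D : ℕ} {a : B} (ha : NoeS y c D a) :
    NoeS y c (D + 1) (y 0 * a) := by
  obtain ⟨p, hp, rfl⟩ := ha
  refine ⟨Polynomial.X * p, ?_, ?_⟩
  · rcases eq_or_ne p 0 with rfl | hp0
    · simp
    · rw [Polynomial.degree_mul, Polynomial.degree_X, add_comm]
      rw [Polynomial.degree_eq_natDegree hp0] at hp ⊢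
      have : p.natDegree < D := by exact_mod_cast hp
      exact_mod_cast Nat.add_lt_add_right this 1
  · rw [Polynomial.eval₂_mul, Polynomial.eval₂_X]

theorem NoeS.smul {y : Fin (k + 1) → B} {c : Fin k → ℂ} {D : ℕ} {a : B} (ha : NoeS y c D a)
    (t : ℂ) : NoeS y c D (algebraMap ℂ B t * a) := by
  have := ha.mul_aeval (C t)
  rwa [aeval_C] at this

theorem NoeS.neg {y : Fin (k + 1) → B} {c : Fin k → ℂ} {D : ℕ} {a : B} (ha : NoeS y c D a) :
    NoeS y c D (-a) := by
  have := ha.smul (-1)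
  rwa [map_neg, map_one, neg_one_mul] at this

theorem NoeS.sum {ι : Type*} {y : Fin (k + 1) → B} {c : Fin k → ℂ} {D : ℕ} (s : Finset ι)
    {a : ι → B} (h : ∀ i ∈ s, NoeS y c D (a i)) : NoeS y c D (∑ i ∈ s, a i) := by
  classical
  induction s using Finset.induction_on with
  | empty => simpa using NoeS.zero y c D
  | insert i s hi ih =>
    rw [Finset.sum_insert hi]
    exact (h i (Finset.mem_insert_self _ _)).add (ih fun j hj => h j (Finset.mem_insert_of_mem hj))

theorem NoeS.pow (y : Fin (k + 1) → B) (c : Fin k → ℂ) {j D : ℕ} (h : j < D) :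
    NoeS y c D (y 0 ^ j) :=
  ⟨Polynomial.X ^ j, (Polynomial.degree_X_pow_le j).trans_lt (by exact_mod_cast h), by simp⟩

theorem noe_monomialS (y : Fin (k + 1) → B) (c : Fin k → ℂ) (m : Fin (k + 1) →₀ ℕ) :
    NoeS y c m.degree (aeval y (monomial m (1 : ℂ)) -
      algebraMap ℂ B (eval (noeC c) (monomial m 1)) * y 0 ^ m.degree) := by
  refine noe_ind (fun m => NoeS y c m.degree (aeval y (monomial m (1 : ℂ)) -
      algebraMap ℂ B (eval (noeC c) (monomial m 1)) * y 0 ^ m.degree)) ?_ (fun m i hm => ?_) m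
  · simpa using NoeS.zero y c 0
  · have h : (monomial (m + Finsupp.single i 1) (1 : ℂ)) = monomial m 1 * X i := by
      rw [X, monomial_mul, one_mul]
    rw [h, map_mul, aeval_X, map_add, Finsupp.degree_single, map_mul, eval_X, map_mul]
    set z := y i - algebraMap ℂ B (noeC c i) * y 0 with hz
    set a := aeval y (monomial m (1 : ℂ)) -
      algebraMap ℂ B (eval (noeC c) (monomial m 1)) * y 0 ^ m.degree with ha
    have h1 : aeval y (monomial m (1 : ℂ)) * y i -
        algebraMap ℂ B (eval (noeC c) (monomial m 1)) * algebraMap ℂ B (noeC c i) *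
          y 0 ^ (m.degree + 1) =
        z * a + algebraMap ℂ B (noeC c i) * (y 0 * a) +
        z * (algebraMap ℂ B (eval (noeC c) (monomial m 1)) * y 0 ^ m.degree) := by
      rw [hz, ha]
      ring
    have h2 : ∀ (E : ℕ) (b : B), NoeS y c E b → NoeS y c E (z * b) := by
      intro E b hb
      rcases noe_diff y c i with h3 | ⟨j, h3⟩
      · rw [hz, h3, zero_mul]
        exact NoeS.zero y c E
      · rw [hz, h3, ← aeval_X (R := ℂ) (noeY y c) j]
        exact hb.mul_aeval _
    rw [h1]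
    refine (((h2 _ _ hm).mono (Nat.le_succ _)).add (hm.mul_y.smul _)).add (h2 _ _ ?_)
    exact (NoeS.pow y c (Nat.lt_succ_self _)).smul _

/-- the value of a component -/
theorem noe_comp (f : MvPolynomial (Fin (k + 1)) ℂ) (D : ℕ) (v : Fin (k + 1) → ℂ) :
    eval v (homogeneousComponent D f) = ∑ m ∈ f.support with m.degree = D,
      coeff m f * eval v (monomial m 1) := by
  rw [homogeneousComponent_apply, map_sum]
  refine Finset.sum_congr rfl fun m _ => ?_
  rw [eval_monomial, eval_monomial, one_mul]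

theorem noe_aeval (y : Fin (k + 1) → B) (f : MvPolynomial (Fin (k + 1)) ℂ) :
    aeval y f = ∑ m ∈ f.support, algebraMap ℂ B (coeff m f) * aeval y (monomial m (1 : ℂ)) := by
  conv_lhs => rw [f.as_sum, map_sum]
  refine Finset.sum_congr rfl fun m _ => ?_
  rw [aeval_monomial, aeval_monomial, map_one, one_mul]

theorem noe_split (y : Fin (k + 1) → B) {f : MvPolynomial (Fin (k + 1)) ℂ} (hf : aeval y f = 0)
    (c : Fin k → ℂ) (D : ℕ) :
    algebraMap ℂ B (eval (noeC c) (homogeneousComponent D f)) * y 0 ^ D =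
      -(∑ m ∈ f.support with m.degree = D, algebraMap ℂ B (coeff m f) *
        (aeval y (monomial m (1 : ℂ)) -
          algebraMap ℂ B (eval (noeC c) (monomial m 1)) * y 0 ^ m.degree)) +
      -(∑ m ∈ f.support with ¬ m.degree = D, algebraMap ℂ B (coeff m f) *
        aeval y (monomial m (1 : ℂ))) := by
  have h1 := noe_aeval y f
  rw [hf, ← Finset.sum_filter_add_sum_filter_not f.support (fun m => m.degree = D)] at h1
  have h2 : algebraMap ℂ B (eval (noeC c) (homogeneousComponent D f)) * y 0 ^ D =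
      ∑ m ∈ f.support with m.degree = D, algebraMap ℂ B (coeff m f) *
        (algebraMap ℂ B (eval (noeC c) (monomial m 1)) * y 0 ^ m.degree) := by
    rw [noe_comp, map_sum, Finset.sum_mul]
    refine Finset.sum_congr rfl fun m hm => ?_
    rw [(Finset.mem_filter.1 hm).2, map_mul, mul_assoc]
  rw [h2]
  simp only [mul_sub, Finset.sum_sub_distrib]
  linear_combination -h1

theorem noe_top (y : Fin (k + 1) → B) {f : MvPolynomial (Fin (k + 1)) ℂ} (hf : aeval y f = 0)
    (c : Fin k → ℂ) {T : ℕ} (hT : ∀ m ∈ f.support, m.degree ≤ T)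
    (hc : eval (noeC c) (homogeneousComponent T f) ≠ 0) : NoeS y c T (y 0 ^ T) := by
  set t := eval (noeC c) (homogeneousComponent T f) with ht
  have h1 : NoeS y c T (algebraMap ℂ B t * y 0 ^ T) := by
    rw [ht, noe_split y hf c T]
    refine NoeS.add (NoeS.neg (NoeS.sum _ fun m hm => ?_)) (NoeS.neg (NoeS.sum _ fun m hm => ?_))
    · refine NoeS.smul ?_ _
      have h2 := noe_monomialS y c m
      exact h2.mono (hT m (Finset.mem_filter.1 hm).1)
    · refine NoeS.smul ?_ _
      obtain ⟨h3, h4⟩ := Finset.mem_filter.1 hm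
      have h5 : m.degree < T := lt_of_le_of_ne (hT m h3) h4
      have h6 : aeval y (monomial m (1 : ℂ)) = (aeval y (monomial m (1 : ℂ)) -
          algebraMap ℂ B (eval (noeC c) (monomial m 1)) * y 0 ^ m.degree) +
          algebraMap ℂ B (eval (noeC c) (monomial m 1)) * y 0 ^ m.degree := by ring
      rw [h6]
      exact ((noe_monomialS y c m).mono h5.le).add ((NoeS.pow y c h5).smul _)
  have h2 := h1.smul t⁻¹
  rwa [← mul_assoc, ← map_mul, inv_mul_cancel₀ hc, map_one, one_mul] at h2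

theorem noe_low (y : Fin (k + 1) → B) {f : MvPolynomial (Fin (k + 1)) ℂ} (hf : aeval y f = 0)
    (c : Fin k → ℂ) {L : ℕ} (hL : ∀ m ∈ f.support, L + 1 ≤ m.degree)
    (hc : eval (noeC c) (homogeneousComponent (L + 1) f) ≠ 0) :
    y 0 ^ (L + 1) ∈ Ideal.span (Set.range (noeY y c)) * Ideal.span (Set.range y) ^ L ⊔
      Ideal.span (Set.range y) ^ (L + 2) := by
  set t := eval (noeC c) (homogeneousComponent (L + 1) f) with ht
  set K := Ideal.span (Set.range (noeY y c)) * Ideal.span (Set.range y) ^ L ⊔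
      Ideal.span (Set.range y) ^ (L + 2) with hK
  have h1 : algebraMap ℂ B t * y 0 ^ (L + 1) ∈ K := by
    rw [ht, noe_split y hf c (L + 1)]
    refine Ideal.add_mem _ (Ideal.neg_mem_iff _ |>.2 (Ideal.sum_mem _ fun m hm => ?_))
      (Ideal.neg_mem_iff _ |>.2 (Ideal.sum_mem _ fun m hm => ?_))
    · refine Ideal.mul_mem_left _ _ (Ideal.mem_sup_left ?_)
      have h2 := noe_monomial y c m
      rw [(Finset.mem_filter.1 hm).2, Nat.add_sub_cancel] at h2
      rw [(Finset.mem_filter.1 hm).2]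
      exact h2
    · refine Ideal.mul_mem_left _ _ (Ideal.mem_sup_right ?_)
      obtain ⟨h3, h4⟩ := Finset.mem_filter.1 hm
      have h5 : L + 2 ≤ m.degree := by
        have := hL m h3
        omega
      exact Ideal.pow_le_pow_right h5 (noe_pow_mem y m)
  have h2 := Ideal.mul_mem_left K (algebraMap ℂ B t⁻¹) h1
  rwa [← mul_assoc, ← map_mul, inv_mul_cancel₀ hc, map_one, one_mul] at h2

end

theorem noe_comp_smul {k : ℕ} (f : MvPolynomial (Fin (k + 1)) ℂ) (D : ℕ) (v : Fin (k + 1) → ℂ)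
    (t : ℂ) : eval (fun i => t * v i) (homogeneousComponent D f) =
      t ^ D * eval v (homogeneousComponent D f) := by
  rw [noe_comp, noe_comp, Finset.mul_sum]
  refine Finset.sum_congr rfl fun m hm => ?_
  rw [← (Finset.mem_filter.1 hm).2, eval_monomial, eval_monomial, one_mul, one_mul]
  have h1 : (m.prod fun i e => (t * v i) ^ e) = t ^ m.degree * m.prod fun i e => v i ^ e := by
    simp only [mul_pow, Finsupp.prod_mul]
    congr 1
    rw [Finsupp.prod, Finset.prod_pow_eq_pow_sum]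
    rfl
  rw [h1]
  ring

theorem noe_exists_c {k : ℕ} (f : MvPolynomial (Fin (k + 1)) ℂ) (D E : ℕ)
    (hD : homogeneousComponent D f ≠ 0) (hE : homogeneousComponent E f ≠ 0) :
    ∃ c : Fin k → ℂ, eval (noeC c) (homogeneousComponent D f) ≠ 0 ∧
      eval (noeC c) (homogeneousComponent E f) ≠ 0 := by
  have h1 : homogeneousComponent D f * homogeneousComponent E f * X 0 ≠ 0 :=
    mul_ne_zero (mul_ne_zero hD hE) (X_ne_zero 0)
  obtain ⟨v, hv⟩ : ∃ v, eval v (homogeneousComponent D f * homogeneousComponent E f * X 0) ≠ 0 := by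
    by_contra! hcon
    exact h1 (MvPolynomial.funext fun v => by rw [hcon v, map_zero])
  rw [map_mul, map_mul, eval_X] at hv
  have hv0 : v 0 ≠ 0 := right_ne_zero_of_mul hv
  have hv1 := left_ne_zero_of_mul hv
  have h2 : noeC (fun i : Fin k => (v 0)⁻¹ * v i.succ) = fun i => (v 0)⁻¹ * v i := by
    funext i
    refine Fin.cases ?_ (fun j => ?_) i
    · simp [noeC, hv0]
    · simp [noeC]
  refine ⟨fun i => (v 0)⁻¹ * v i.succ, ?_, ?_⟩
  · rw [h2, noe_comp_smul]
    exact mul_ne_zero (pow_ne_zero _ (inv_ne_zero hv0)) (left_ne_zero_of_mul hv1)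
  · rw [h2, noe_comp_smul]
    exact mul_ne_zero (pow_ne_zero _ (inv_ne_zero hv0)) (right_ne_zero_of_mul hv1)

theorem noe_comp_ne {k : ℕ} {f : MvPolynomial (Fin (k + 1)) ℂ} {m : Fin (k + 1) →₀ ℕ}
    (hm : m ∈ f.support) : homogeneousComponent m.degree f ≠ 0 := by
  intro h
  have h1 := congrArg (coeff m) h
  rw [coeff_homogeneousComponent, if_pos rfl, coeff_zero] at h1
  exact (mem_support_iff.1 hm) h1

/-- The new coordinates are finite. -/
theorem noe_finite {k : ℕ} {B : Type*} [CommRing B] [Algebra ℂ B] (y : Fin (k + 1) → B)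
    (c : Fin k → ℂ) {T : ℕ}
    (hfin : (aeval y : MvPolynomial (Fin (k + 1)) ℂ →ₐ[ℂ] B).toRingHom.Finite)
    (hft : Algebra.FiniteType ℂ B) (hT : NoeS y c T (y 0 ^ T)) :
    (aeval (noeY y c) : MvPolynomial (Fin k) ℂ →ₐ[ℂ] B).toRingHom.Finite := by
  let alg : Algebra (MvPolynomial (Fin k) ℂ) B :=
    (aeval (noeY y c) : MvPolynomial (Fin k) ℂ →ₐ[ℂ] B).toRingHom.toAlgebra
  have hst : IsScalarTower ℂ (MvPolynomial (Fin k) ℂ) B := by
    refine IsScalarTower.of_algebraMap_eq fun t => ?_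
    change _ = aeval (noeY y c) (algebraMap ℂ (MvPolynomial (Fin k) ℂ) t)
    rw [AlgHom.commutes]
  have hy0 : IsIntegral (MvPolynomial (Fin k) ℂ) (y 0) := by
    obtain ⟨p, hp, hpe⟩ := hT
    refine ⟨Polynomial.X ^ T - p, Polynomial.monic_X_pow_sub hp, ?_⟩
    rw [Polynomial.eval₂_sub, Polynomial.eval₂_X_pow]
    change y 0 ^ T - p.eval₂ (aeval (noeY y c) : MvPolynomial (Fin k) ℂ →ₐ[ℂ] B).toRingHom
      (y 0) = 0
    rw [hpe, sub_self]
  have hmem : ∀ j, y j ∈ integralClosure (MvPolynomial (Fin k) ℂ) B := by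
    intro j
    have h1 : ∀ t : ℂ, algebraMap ℂ B t ∈ integralClosure (MvPolynomial (Fin k) ℂ) B := by
      intro t
      rw [IsScalarTower.algebraMap_apply ℂ (MvPolynomial (Fin k) ℂ) B]
      exact Subalgebra.algebraMap_mem _ _
    have h2 : y j = (y j - algebraMap ℂ B (noeC c j) * y 0) + algebraMap ℂ B (noeC c j) * y 0 := by
      ring
    rw [h2]
    refine Subalgebra.add_mem _ ?_ (Subalgebra.mul_mem _ (h1 _) hy0)
    rcases noe_diff y c j with h3 | ⟨i, h3⟩
    · rw [h3]
      exact Subalgebra.zero_mem _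
    · rw [h3]
      have h4 : noeY y c i = algebraMap (MvPolynomial (Fin k) ℂ) B (X i) :=
        (aeval_X (R := ℂ) (noeY y c) i).symm
      rw [h4]
      exact Subalgebra.algebraMap_mem _ _
  have hall : ∀ q : MvPolynomial (Fin (k + 1)) ℂ,
      aeval y q ∈ integralClosure (MvPolynomial (Fin k) ℂ) B := by
    intro q
    induction q using MvPolynomial.induction_on with
    | C a =>
      rw [aeval_C, IsScalarTower.algebraMap_apply ℂ (MvPolynomial (Fin k) ℂ) B]
      exact Subalgebra.algebraMap_mem _ _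
    | add p q hp hq =>
      rw [map_add]
      exact Subalgebra.add_mem _ hp hq
    | mul_X p i hp =>
      rw [map_mul, aeval_X]
      exact Subalgebra.mul_mem _ hp (hmem i)
  refine RingHom.IsIntegral.to_finite (fun b => ?_) ?_
  · change IsIntegral (MvPolynomial (Fin k) ℂ) b
    refine isIntegral_trans (A := integralClosure (MvPolynomial (Fin k) ℂ) B) b ?_
    obtain ⟨p, hp, hpe⟩ := hfin.to_isIntegral b
    let ψ : MvPolynomial (Fin (k + 1)) ℂ →+* integralClosure (MvPolynomial (Fin k) ℂ) B :=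
      (aeval y : MvPolynomial (Fin (k + 1)) ℂ →ₐ[ℂ] B).toRingHom.codRestrict
        (integralClosure (MvPolynomial (Fin k) ℂ) B) hall
    refine ⟨p.map ψ, hp.map ψ, ?_⟩
    rw [Polynomial.eval₂_map]
    exact hpe
  · refine RingHom.FiniteType.of_comp_finiteType (f := algebraMap ℂ (MvPolynomial (Fin k) ℂ)) ?_
    have h1 : (aeval (noeY y c) : MvPolynomial (Fin k) ℂ →ₐ[ℂ] B).toRingHom.comp
        (algebraMap ℂ (MvPolynomial (Fin k) ℂ)) = algebraMap ℂ B := by
      ext t
      change aeval (noeY y c) (algebraMap ℂ _ t) = _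
      rw [AlgHom.commutes]
    rw [h1]
    exact RingHom.finiteType_algebraMap.2 hft

section

variable {B : Type} [CommRing B] [Algebra ℂ B]

theorem noe_sub_mem {n : ℕ} (y : Fin n → B) (p : MvPolynomial (Fin n) ℂ) :
    aeval y p - algebraMap ℂ B (eval 0 p) ∈ Ideal.span (Set.range y) := by
  induction p using MvPolynomial.induction_on with
  | C a => simp
  | add p q hp hq =>
    have h := Ideal.add_mem _ hp hq
    rw [map_add, map_add, map_add]
    convert h using 1
    ring
  | mul_X p i _ =>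
    have h : y i ∈ Ideal.span (Set.range y) := Ideal.subset_span ⟨i, rfl⟩
    rw [map_mul, map_mul, aeval_X, eval_X, Pi.zero_apply, mul_zero, map_zero, sub_zero]
    exact Ideal.mul_mem_left _ _ h

theorem noe_eval (x : Pt B) {n : ℕ} {y : Fin n → B} (hy : ∀ i, x (y i) = 0)
    (p : MvPolynomial (Fin n) ℂ) : x (aeval y p) = eval 0 p := by
  have h1 : Ideal.span (Set.range y) ≤ RingHom.ker x := by
    rw [Ideal.span_le]
    rintro _ ⟨i, rfl⟩
    exact hy i
  have h2 := h1 (noe_sub_mem y p)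
  rw [RingHom.mem_ker, map_sub, AlgHom.commutes, sub_eq_zero] at h2
  exact h2

/-- the coordinates at the point `x` -/
structure NoeGood (x : Pt B) {n : ℕ} (y : Fin n → B) : Prop where
  fin : (aeval y : MvPolynomial (Fin n) ℂ →ₐ[ℂ] B).toRingHom.Finite
  zero : ∀ i, x (y i) = 0
  red : IsReductionAt (RingHom.ker x) y

theorem noe_base [hft : Algebra.FiniteType ℂ B] (x : Pt B) :
    ∃ (n : ℕ) (y : Fin n → B), NoeGood x y := by
  obtain ⟨n, f, hf⟩ := Algebra.FiniteType.iff_quotient_mvPolynomial''.1 hft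
  set y : Fin n → B := fun j => f (X j) - algebraMap ℂ B (x (f (X j))) with hy
  have hy0 : ∀ i, x (y i) = 0 := fun i => by
    rw [hy]
    simp only [map_sub, AlgHom.commutes]
    exact sub_self _
  have hsurj : Function.Surjective (aeval y : MvPolynomial (Fin n) ℂ →ₐ[ℂ] B) := by
    intro b
    obtain ⟨p, rfl⟩ := hf b
    refine ⟨aeval (fun j => X j + C (x (f (X j)))) p, ?_⟩
    have h1 : (aeval y : MvPolynomial (Fin n) ℂ →ₐ[ℂ] B).comp
        (aeval fun j => X j + C (x (f (X j)))) = f := by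
      apply MvPolynomial.algHom_ext
      intro j
      rw [AlgHom.comp_apply, aeval_X, map_add, aeval_X, aeval_C, hy]
      exact sub_add_cancel _ _
    exact AlgHom.congr_fun h1 p
  refine ⟨n, y, ⟨RingHom.Finite.of_surjective _ hsurj, hy0, 0, ?_⟩⟩
  rw [zero_add, pow_one, pow_zero, Ideal.one_eq_top, Ideal.mul_top,
    ← Localization.AtPrime.map_eq_maximalIdeal]
  refine Ideal.map_mono fun b hb => ?_
  obtain ⟨p, rfl⟩ := hsurj b
  rw [RingHom.mem_ker, noe_eval x hy0] at hb
  have h1 := noe_sub_mem y p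
  rwa [hb, map_zero, sub_zero] at h1

theorem noe_step [hft : Algebra.FiniteType ℂ B] (x : Pt B) {k : ℕ} (y : Fin (k + 1) → B)
    (hy : NoeGood x y) (hdep : ¬ AlgebraicIndependent ℂ y) : ∃ y' : Fin k → B, NoeGood x y' := by
  classical
  have hnoe : IsNoetherianRing B := Algebra.FiniteType.isNoetherianRing ℂ B
  obtain ⟨f, hf, hf0⟩ : ∃ f : MvPolynomial (Fin (k + 1)) ℂ, aeval y f = 0 ∧ f ≠ 0 := by
    by_contra! hcon
    exact hdep ((injective_iff_map_eq_zero _).2 hcon)
  have hne : f.support.Nonempty := by rwa [Finset.nonempty_iff_ne_empty, ne_eq, support_eq_empty]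
  obtain ⟨m₁, hm₁, hmax⟩ := Finset.exists_max_image f.support (fun m => m.degree) hne
  obtain ⟨m₂, hm₂, hmin⟩ := Finset.exists_min_image f.support (fun m => m.degree) hne
  have hpos : m₂.degree ≠ 0 := by
    intro h
    rw [Finsupp.degree_eq_zero_iff] at h
    subst h
    have h1 := noe_eval x hy.zero f
    rw [hf, map_zero] at h1
    rw [mem_support_iff, ← constantCoeff_eq, ← eval_zero] at hm₂
    exact hm₂ h1.symm
  obtain ⟨L, hL⟩ := Nat.exists_eq_succ_of_ne_zero hpos
  obtain ⟨c, hc1, hc2⟩ := noe_exists_c f m₁.degree m₂.degree (noe_comp_ne hm₁) (noe_comp_ne hm₂)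
  have hT := noe_top y hf c hmax hc1
  rw [hL] at hc2
  have hlow := noe_low y hf c (L := L) (fun m hm => by
    have := hmin m hm
    omega) hc2
  refine ⟨noeY y c, noe_finite y c hy.fin hft hT, fun i => ?_, ?_⟩
  · rw [noeY, map_sub, map_mul, hy.zero, hy.zero, mul_zero, sub_zero]
  · obtain ⟨N, hN⟩ := hy.red
    refine ⟨N + L, ?_⟩
    refine noe_red (I := paramIdeal (RingHom.ker x) y)
      (y₀ := algebraMap B (Localization.AtPrime (RingHom.ker x)) (y 0)) ?_ ?_ ?_ hN
    · rw [paramIdeal, noe_span y c, Ideal.map_sup, Ideal.map_span _ {y 0}, Set.image_singleton]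
      rfl
    · rw [paramIdeal, ← Localization.AtPrime.map_eq_maximalIdeal]
      refine Ideal.map_mono ?_
      rw [Ideal.span_le]
      rintro _ ⟨i, rfl⟩
      exact hy.zero i
    · have h1 := Ideal.mem_map_of_mem (algebraMap B (Localization.AtPrime (RingHom.ker x))) hlow
      rw [map_pow, Ideal.map_sup, Ideal.map_mul, Ideal.map_pow, Ideal.map_pow] at h1
      exact h1

/-- Every affine variety has, at each point, a Noether normalization by elements which generate a
reduction of the maximal ideal of the point. -/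
theorem exists_coord [Algebra.FiniteType ℂ B] (x : Pt B) :
    ∃ (n : ℕ) (y : Fin n → B), IsCoord y x := by
  obtain ⟨n, y, hy⟩ := noe_base x
  induction n with
  | zero =>
    refine ⟨0, y, ⟨hy.fin, ?_, funext fun i => hy.zero i, hy.red⟩⟩
    have : Nontrivial B := x.toRingHom.domain_nontrivial
    have : FaithfulSMul ℂ B := inferInstance
    exact algebraicIndependent_empty_type_iff.2 (FaithfulSMul.algebraMap_injective ℂ B)
  | succ k ih =>
    by_cases h : AlgebraicIndependent ℂ y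
    · exact ⟨k + 1, y, ⟨hy.fin, h, funext fun i => hy.zero i, hy.red⟩⟩
    · obtain ⟨y', hy'⟩ := noe_step x y hy h
      exact ih y' hy'

end

end Pool.Agent.Odp3
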