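import Mathlib

/-!
# Reflexivity of a finite normal extension

`P` is a domain and `B` is an integrally closed domain, finite and torsion free over `P`. Every
functional on the module of the functionals of `B` is the evaluation at an element of `B`.
-/

open Module

namespace Pool.Agent.Odp3

section

variable {P B : Type*} [CommRing P] [IsDomain P] [CommRing B] [IsDomain B] [Algebra P B]
  [Module.Finite P B]

/-- A generic basis: `D b = ∑ ε_i(b) e_i` for all `b`. -/
theorem exists_quasiBasis (P B : Type*) [CommRing P] [IsDomain P] [AddCommGroup B] [Module P B]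
    [Module.Finite P B] : ∃ (d : ℕ) (e : Fin d → B) (ε : Fin d → Dual P B) (D : P), D ≠ 0 ∧
    LinearIndependent P e ∧
    (∀ b, D • b = ∑ i, ε i b • e i) ∧ ∀ i j, ε i (e j) = if i = j then D else 0 := by
  classical
  obtain ⟨k, v, hv⟩ := Module.Finite.exists_fin (R := P) (M := B)
  obtain ⟨s, hs, hmax⟩ := exists_maximal_linearIndepOn P v
  have h1 : ∀ i, ∃ a : P, a ≠ 0 ∧ a • v i ∈ Submodule.span P (v '' s) := by
    intro i
    by_cases hi : i ∈ s
    · exact ⟨1, one_ne_zero, by
        rw [one_smul]
        exact Submodule.subset_span ⟨i, hi, rfl⟩⟩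
    · exact hmax i hi
  choose a ha ham using h1
  set D : P := ∏ i, a i with hD
  have hDv : ∀ i, D • v i ∈ Submodule.span P (v '' s) := by
    intro i
    rw [hD, ← Finset.mul_prod_erase _ _ (Finset.mem_univ i), mul_comm, mul_smul]
    exact Submodule.smul_mem _ _ (ham i)
  have hDb : ∀ b : B, D • b ∈ Submodule.span P (v '' s) := by
    intro b
    have hb : b ∈ Submodule.span P (Set.range v) := by rw [hv]; trivial
    induction hb using Submodule.span_induction with
    | mem x hx =>
      obtain ⟨i, rfl⟩ := hx
      exact hDv i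
    | zero => rw [smul_zero]; exact Submodule.zero_mem _
    | add x y _ _ hx hy => rw [smul_add]; exact Submodule.add_mem _ hx hy
    | smul c x _ hx => rw [smul_comm]; exact Submodule.smul_mem _ _ hx
  have hli : LinearIndependent P (fun i : s => v i) := hs
  let σ : Fin (Fintype.card s) ≃ s := (Fintype.equivFin s).symm
  set e : Fin (Fintype.card s) → B := fun i => v (σ i) with he
  have hle : LinearIndependent P e := hli.comp σ σ.injective
  have hrange : Submodule.span P (v '' s) = Submodule.span P (Set.range e) := by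
    congr 1
    ext x
    constructor
    · rintro ⟨i, hi, rfl⟩
      exact ⟨σ.symm ⟨i, hi⟩, by simp [he]⟩
    · rintro ⟨i, rfl⟩
      exact ⟨σ i, (σ i).2, rfl⟩
  rw [hrange] at hDb
  let F : B →ₗ[P] Submodule.span P (Set.range e) :=
    LinearMap.codRestrict _ (D • LinearMap.id) hDb
  let G : B →ₗ[P] (Fin (Fintype.card s) →₀ P) := hle.repr.comp F
  refine ⟨Fintype.card s, e, fun i => (Finsupp.lapply i).comp G, D,
    Finset.prod_ne_zero_iff.2 fun i _ => ha i, hle, fun b => ?_, fun i j => ?_⟩
  · have h2 := hle.linearCombination_repr (F b)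
    rw [Finsupp.linearCombination_apply, Finsupp.sum_fintype _ _ (by simp)] at h2
    exact h2.symm
  · have h3 : F (e j) = D • ⟨e j, Submodule.subset_span ⟨j, rfl⟩⟩ := by
      ext
      rfl
    have h4 : G (e j) = D • Finsupp.single j 1 := by
      change hle.repr (F (e j)) = _
      rw [h3, map_smul, hle.repr_eq_single j _ rfl]
    change (G (e j)) i = _
    rw [h4]
    by_cases hij : i = j
    · simp [hij]
    · simp [hij]

/-- `g / D` is integral, hence `D` divides `g`. -/
theorem exists_mul_eq_of_scaled {P B : Type*} (K : Type*) [CommRing P] [CommRing B] [IsDomain B]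
    [IsIntegrallyClosed B] [Algebra P B] [Field K] [Algebra B K] [IsFractionRing B K] {D : P}
    (hDB : algebraMap P B D ≠ 0) (p : Polynomial P) (hp : p.Monic) (g : B)
    (hz : ∑ i ∈ Finset.range (p.natDegree + 1),
      algebraMap P B (p.coeff i * D ^ (p.natDegree - i)) * g ^ i = 0) :
    ∃ b : B, algebraMap P B D * b = g := by
  set n := p.natDegree with hn
  have hDK : algebraMap B K (algebraMap P B D) ≠ 0 := fun h2 => hDB
    (IsFractionRing.injective B K (h2.trans (map_zero _).symm))
  set x : K := algebraMap B K g / algebraMap B K (algebraMap P B D) with hx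
  have hint : IsIntegral B x := by
    refine ⟨p.map (algebraMap P B), hp.map _, ?_⟩
    rw [Polynomial.eval₂_map, Polynomial.eval₂_eq_sum_range]
    have h1 : algebraMap B K (algebraMap P B D) ^ n * ∑ i ∈ Finset.range (p.natDegree + 1),
        ((algebraMap B K).comp (algebraMap P B)) (p.coeff i) * x ^ i = 0 := by
      rw [← map_zero (algebraMap B K), ← hz, map_sum, Finset.mul_sum]
      refine Finset.sum_congr rfl fun i hi => ?_
      have hi' : i ≤ n := Nat.lt_succ_iff.1 (Finset.mem_range.1 hi)
      have h4 : algebraMap B K (algebraMap P B D) ^ n =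
          algebraMap B K (algebraMap P B D) ^ (n - i) * algebraMap B K (algebraMap P B D) ^ i := by
        rw [← pow_add, Nat.sub_add_cancel hi']
      rw [h4, hx, div_pow, map_mul, map_mul, map_mul, map_pow, map_pow, map_pow]
      change _ * (algebraMap B K (algebraMap P B (p.coeff i)) * _) = _
      field_simp
    exact (mul_eq_zero.1 h1).resolve_left (pow_ne_zero _ hDK)
  obtain ⟨b, hb⟩ := IsIntegrallyClosed.isIntegral_iff.1 hint
  refine ⟨b, IsFractionRing.injective B K ?_⟩
  rw [map_mul, hb, hx, mul_div_cancel₀ _ hDK]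

/-- Every functional on the dual module is an evaluation. -/
theorem exists_eval_eq [IsNoetherianRing P] [FaithfulSMul P B] [IsIntegrallyClosed B] (l : Dual P (Dual P B)) :
    ∃ b : B, ∀ φ : Dual P B, l φ = φ b := by
  classical
  obtain ⟨d, e, ε, D, hD, -, hrep, -⟩ := exists_quasiBasis P B
  set g : B := ∑ i, l (ε i) • e i with hg
  have hφ : ∀ φ : Dual P B, D • φ = ∑ i, φ (e i) • ε i := by
    intro φ
    ext b
    have h1 := congrArg φ (hrep b)
    rw [map_smul, map_sum] at h1
    simp only [map_smul, smul_eq_mul] at h1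
    simp only [LinearMap.smul_apply, smul_eq_mul, LinearMap.sum_apply]
    rw [h1]
    exact Finset.sum_congr rfl fun i _ => mul_comm _ _
  have hlg : ∀ φ : Dual P B, D * l φ = φ g := by
    intro φ
    have h1 := congrArg l (hφ φ)
    rw [map_smul, map_sum, smul_eq_mul] at h1
    rw [h1, hg, map_sum]
    refine Finset.sum_congr rfl fun i _ => ?_
    rw [map_smul, map_smul, smul_eq_mul, smul_eq_mul, mul_comm]
  -- the endomorphism `θ` of the dual module
  let m : B →ₗ[P] (B →ₗ[P] B) := LinearMap.mul P B
  let θ : Dual P B →ₗ[P] Dual P B :=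
    { toFun := fun φ =>
        { toFun := fun b => l (φ.comp (m b))
          map_add' := fun b c => by
            rw [map_add, LinearMap.comp_add, map_add]
          map_smul' := fun c b => by
            rw [map_smul, LinearMap.comp_smul, map_smul]
            rfl }
      map_add' := fun φ ψ => by
        ext b
        change l ((φ + ψ).comp (m b)) = l (φ.comp (m b)) + l (ψ.comp (m b))
        rw [LinearMap.add_comp, map_add]
      map_smul' := fun c φ => by
        ext b
        change l ((c • φ).comp (m b)) = c • l (φ.comp (m b))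
        rw [LinearMap.smul_comp, map_smul] }
  have hθ : ∀ (φ : Dual P B), D • θ φ = φ.comp (m g) := by
    intro φ
    ext b
    change D * l (φ.comp (m b)) = φ (g * b)
    rw [hlg]
    change φ (b * g) = φ (g * b)
    rw [mul_comm]
  have hpow : ∀ (k : ℕ) (φ : Dual P B), D ^ k • (θ ^ k) φ = φ.comp (m (g ^ k)) := by
    intro k
    induction k with
    | zero =>
      intro φ
      ext b
      change (D ^ 0 • φ) b = φ (g ^ 0 * b)
      simp
    | succ k ih =>
      intro φ
      have h1 : (θ ^ (k + 1)) φ = θ ((θ ^ k) φ) := by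
        rw [pow_succ']
        rfl
      rw [h1, pow_succ, mul_smul, hθ, ← LinearMap.smul_comp, ih]
      ext b
      change φ (g ^ k * (g * b)) = φ (g ^ (k + 1) * b)
      rw [pow_succ, mul_assoc]
  have hinj : ∀ x : B, (∀ φ : Dual P B, φ x = 0) → x = 0 := by
    intro x hx
    have h1 := hrep x
    rw [Finset.sum_eq_zero fun i _ => by rw [hx, zero_smul], Algebra.smul_def] at h1
    refine (mul_eq_zero.1 h1).resolve_left fun h2 => hD ?_
    exact FaithfulSMul.algebraMap_injective P B (h2.trans (map_zero _).symm)
  obtain ⟨p, hp, hp0⟩ := LinearMap.exists_monic_and_aeval_eq_zero P θ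
  set n := p.natDegree with hn
  have hz : ∑ i ∈ Finset.range (n + 1), algebraMap P B (p.coeff i * D ^ (n - i)) * g ^ i = 0 := by
    refine hinj _ fun φ => ?_
    have h1 : (Polynomial.aeval θ p) φ = 0 := by rw [hp0]; rfl
    rw [Polynomial.aeval_eq_sum_range, LinearMap.sum_apply] at h1
    have h2 : ∑ i ∈ Finset.range (n + 1), (p.coeff i * D ^ (n - i)) • φ.comp (m (g ^ i)) = 0 := by
      have h3 : D ^ n • ∑ i ∈ Finset.range (n + 1), (p.coeff i • θ ^ i) φ = 0 := by
        rw [h1, smul_zero]
      rw [← h3, Finset.smul_sum]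
      refine Finset.sum_congr rfl fun i hi => ?_
      have hi' : i ≤ n := Nat.lt_succ_iff.1 (Finset.mem_range.1 hi)
      rw [← hpow, LinearMap.smul_apply, smul_smul, smul_smul]
      congr 1
      have h4 : D ^ n = D ^ (n - i) * D ^ i := by rw [← pow_add, Nat.sub_add_cancel hi']
      rw [h4]
      ring
    have h5 := congrArg (fun ψ : Dual P B => ψ 1) h2
    simp only [LinearMap.sum_apply, LinearMap.smul_apply, LinearMap.zero_apply] at h5
    rw [map_sum, ← h5]
    refine Finset.sum_congr rfl fun i _ => ?_
    rw [← Algebra.smul_def, map_smul]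
    congr 1
    change φ (g ^ i) = φ (g ^ i * 1)
    rw [mul_one]
  have hDB : algebraMap P B D ≠ 0 := fun h2 => hD
    (FaithfulSMul.algebraMap_injective P B (h2.trans (map_zero _).symm))
  obtain ⟨b, hb⟩ := exists_mul_eq_of_scaled (FractionRing B) hDB p hp g hz
  have hgb : g = D • b := by rw [Algebra.smul_def, hb]
  refine ⟨b, fun φ => ?_⟩
  have h1 := hlg φ
  rw [hgb, map_smul, smul_eq_mul] at h1
  exact mul_left_cancel₀ hD h1

/-- A system of values that is compatible with the relations between generators of the dual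
module is the system of the values at an element of `B`. -/
theorem exists_eval_eq_of_relations [IsNoetherianRing P] [FaithfulSMul P B]
    [IsIntegrallyClosed B] {k : ℕ} (φ : Fin k → Dual P B)
    (hφ : Submodule.span P (Set.range φ) = ⊤) (g : Fin k → P)
    (hg : ∀ c : Fin k → P, ∑ j, c j • φ j = 0 → ∑ j, c j * g j = 0) :
    ∃ b : B, ∀ j, φ j b = g j := by
  let Φ : (Fin k → P) →ₗ[P] Dual P B := Fintype.linearCombination P φ
  have hsurj : Function.Surjective Φ := by
    rw [← LinearMap.range_eq_top, ← hφ]
    exact Fintype.range_linearCombination P φ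
  let γ : (Fin k → P) →ₗ[P] P := Fintype.linearCombination P g
  have hker : LinearMap.ker Φ ≤ LinearMap.ker γ := by
    intro c hc
    rw [LinearMap.mem_ker, Fintype.linearCombination_apply] at hc ⊢
    exact hg c hc
  let l : Dual P (Dual P B) := (LinearMap.ker Φ).liftQ γ hker ∘ₗ
    (Φ.quotKerEquivOfSurjective hsurj).symm.toLinearMap
  have hl : ∀ c, l (Φ c) = γ c := by
    intro c
    change (LinearMap.ker Φ).liftQ γ hker ((Φ.quotKerEquivOfSurjective hsurj).symm (Φ c)) = _
    have h1 : (Φ.quotKerEquivOfSurjective hsurj).symm (Φ c) = Submodule.Quotient.mk c := by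
      rw [LinearEquiv.symm_apply_eq]
      rfl
    rw [h1]
    rfl
  obtain ⟨b, hb⟩ := exists_eval_eq l
  refine ⟨b, fun j => ?_⟩
  classical
  have h2 : Φ (Pi.single j 1) = φ j := by
    rw [Fintype.linearCombination_apply_single, one_smul]
  have h3 : γ (Pi.single j 1) = g j := by
    rw [Fintype.linearCombination_apply_single, one_smul]
  rw [← hb, ← h2, hl, h3]

end

end Pool.Agent.Odp3
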