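import Mathlib

/-!
# Linear changes of coordinates and integrality
-/

open MvPolynomial

namespace Pool.Agent.Odp3

section shear

variable {k : ℕ}

theorem shear_eval_smul {d : ℕ} {p : MvPolynomial (Fin k) ℂ} (hp : p.IsHomogeneous d) (t : ℂ)
    (v : Fin k → ℂ) : eval (t • v) p = t ^ d * eval v p := by
  classical
  conv_lhs => rw [as_sum p]
  conv_rhs => rw [as_sum p]
  rw [map_sum, map_sum, Finset.mul_sum]
  refine Finset.sum_congr rfl fun m hm => ?_
  rw [eval_monomial, eval_monomial, Finsupp.prod_fintype _ _ fun i => pow_zero _,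
    Finsupp.prod_fintype _ _ fun i => pow_zero _]
  simp only [Pi.smul_apply, smul_eq_mul, mul_pow, Finset.prod_mul_distrib]
  rw [Finset.prod_pow_eq_pow_sum, ← Finsupp.degree_eq_sum]
  have h1 : m.degree = d := by
    rw [Finsupp.degree_eq_weight_one]
    exact hp (mem_support_iff.mp hm)
  rw [h1]
  ring

/-- a point `c` with last coordinate `1` at which two forms do not vanish -/
theorem exists_shear {a b : ℕ} {T L : MvPolynomial (Fin (k + 1)) ℂ} (hT : T.IsHomogeneous a)
    (hL : L.IsHomogeneous b) (hT0 : T ≠ 0) (hL0 : L ≠ 0) :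
    ∃ c : Fin (k + 1) → ℂ, c (Fin.last k) = 1 ∧ eval c T ≠ 0 ∧ eval c L ≠ 0 := by
  have h1 : T * L * X (Fin.last k) ≠ 0 := mul_ne_zero (mul_ne_zero hT0 hL0) (X_ne_zero _)
  obtain ⟨v, hv⟩ : ∃ v, eval v (T * L * X (Fin.last k)) ≠ 0 := by
    by_contra h
    push Not at h
    refine h1 (MvPolynomial.funext fun v => ?_)
    rw [h v, map_zero]
  rw [map_mul, map_mul, eval_X] at hv
  have hv1 : v (Fin.last k) ≠ 0 := right_ne_zero_of_mul hv
  have hv2 : eval v T ≠ 0 := left_ne_zero_of_mul (left_ne_zero_of_mul hv)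
  have hv3 : eval v L ≠ 0 := right_ne_zero_of_mul (left_ne_zero_of_mul hv)
  refine ⟨(v (Fin.last k))⁻¹ • v, ?_, ?_, ?_⟩
  · rw [Pi.smul_apply, smul_eq_mul, inv_mul_cancel₀ hv1]
  · rw [shear_eval_smul hT]
    exact mul_ne_zero (pow_ne_zero _ (inv_ne_zero hv1)) hv2
  · rw [shear_eval_smul hL]
    exact mul_ne_zero (pow_ne_zero _ (inv_ne_zero hv1)) hv3

/-- substitution of `X_i + c_i t` and `t` -/
noncomputable def shearHom (c : Fin (k + 1) → ℂ) :
    MvPolynomial (Fin (k + 1)) ℂ →ₐ[ℂ] Polynomial (MvPolynomial (Fin k) ℂ) :=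
  aeval (Fin.snoc (fun i => Polynomial.C (X i) + Polynomial.C (C (c i.castSucc)) * Polynomial.X)
    Polynomial.X : Fin (k + 1) → Polynomial (MvPolynomial (Fin k) ℂ))

theorem natDegree_shearHom_X (c : Fin (k + 1) → ℂ) (i : Fin (k + 1)) :
    (shearHom c (X i)).natDegree ≤ 1 := by
  rw [shearHom, aeval_X]
  refine Fin.lastCases ?_ (fun i => ?_) i
  · rw [Fin.snoc_last]
    exact Polynomial.natDegree_X_le
  · rw [Fin.snoc_castSucc]
    compute_degree

theorem coeff_shearHom_X {c : Fin (k + 1) → ℂ} (hc : c (Fin.last k) = 1) (i : Fin (k + 1)) :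
    (shearHom c (X i)).coeff 1 = C (c i) := by
  rw [shearHom, aeval_X]
  refine Fin.lastCases ?_ (fun i => ?_) i
  · rw [Fin.snoc_last, Polynomial.coeff_X_one, hc, C_1]
  · rw [Fin.snoc_castSucc, Polynomial.coeff_add, Polynomial.coeff_C_mul, Polynomial.coeff_X_one,
      Polynomial.coeff_C]
    simp

theorem shearHom_monomial {c : Fin (k + 1) → ℂ} (hc : c (Fin.last k) = 1) (m : Fin (k + 1) →₀ ℕ)
    (a : ℂ) : (shearHom c (monomial m a)).natDegree ≤ m.degree ∧
      (shearHom c (monomial m a)).coeff m.degree = C (eval c (monomial m a)) := by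
  classical
  have h1 : ∀ s : Finset (Fin (k + 1)), (∏ i ∈ s, shearHom c (X i) ^ m i).natDegree ≤
      ∑ i ∈ s, m i ∧ (∏ i ∈ s, shearHom c (X i) ^ m i).coeff (∑ i ∈ s, m i) =
        C (∏ i ∈ s, c i ^ m i) := by
    intro s
    induction s using Finset.induction_on with
    | empty => simp
    | insert i s hi ih =>
      rw [Finset.prod_insert hi, Finset.sum_insert hi, Finset.prod_insert hi]
      have h2 : (shearHom c (X i) ^ m i).natDegree ≤ m i := by
        refine Polynomial.natDegree_pow_le_of_le (m i) (natDegree_shearHom_X c i) |>.trans ?_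
        rw [mul_one]
      have h3 : (shearHom c (X i) ^ m i).coeff (m i) = C (c i ^ m i) := by
        have h4 := Polynomial.coeff_pow_of_natDegree_le (m := m i) (natDegree_shearHom_X c i)
        rw [mul_one] at h4
        rw [h4, coeff_shearHom_X hc, C_pow]
      refine ⟨Polynomial.natDegree_mul_le_of_le h2 ih.1, ?_⟩
      rw [Polynomial.coeff_mul_add_eq_of_natDegree_le h2 ih.1, h3, ih.2, C_mul]
  have h2 : shearHom c (monomial m a) = Polynomial.C (C a) * ∏ i, shearHom c (X i) ^ m i := by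
    rw [monomial_eq, map_mul, Finsupp.prod_fintype _ _ fun i => pow_zero _, map_prod]
    congr 1
    · rw [← MvPolynomial.algebraMap_eq, AlgHom.commutes]
      rfl
    · exact Finset.prod_congr rfl fun i _ => map_pow _ _ _
  have h3 := h1 Finset.univ
  rw [← Finsupp.degree_eq_sum] at h3
  rw [h2]
  refine ⟨(Polynomial.natDegree_C_mul_le _ _).trans h3.1, ?_⟩
  rw [Polynomial.coeff_C_mul, h3.2, eval_monomial, Finsupp.prod_fintype _ _ fun i => pow_zero _,
    C_mul]

theorem shearHom_spec {c : Fin (k + 1) → ℂ} (hc : c (Fin.last k) = 1)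
    (f : MvPolynomial (Fin (k + 1)) ℂ) : (shearHom c f).natDegree ≤ f.totalDegree ∧
      (shearHom c f).coeff f.totalDegree = C (eval c (homogeneousComponent f.totalDegree f)) := by
  classical
  have h1 : shearHom c f = ∑ m ∈ f.support, shearHom c (monomial m (coeff m f)) := by
    conv_lhs => rw [as_sum f]
    rw [map_sum]
  constructor
  · rw [h1]
    refine Polynomial.natDegree_sum_le_of_forall_le _ _ fun m hm => ?_
    exact (shearHom_monomial hc m _).1.trans (le_totalDegree hm)
  · conv_lhs => rw [h1]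
    rw [Polynomial.finset_sum_coeff, homogeneousComponent_apply, map_sum, map_sum,
      Finset.sum_filter]
    refine Finset.sum_congr rfl fun m hm => ?_
    split_ifs with h2
    · rw [← h2]
      exact (shearHom_monomial hc m _).2
    · refine Polynomial.coeff_eq_zero_of_natDegree_lt ?_
      have h3 : m.degree ≤ f.totalDegree := le_totalDegree hm
      exact (shearHom_monomial hc m _).1.trans_lt (lt_of_le_of_ne h3 h2)

variable {B : Type*} [CommRing B] [Algebra ℂ B]

/-- the new coordinates -/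
def shear (y : Fin (k + 1) → B) (c : Fin (k + 1) → ℂ) (i : Fin k) : B :=
  y i.castSucc - algebraMap ℂ B (c i.castSucc) * y (Fin.last k)

theorem eval_shearHom (y : Fin (k + 1) → B) {c : Fin (k + 1) → ℂ} (f : MvPolynomial (Fin (k + 1)) ℂ) :
    Polynomial.eval₂ (aeval (shear y c) : MvPolynomial (Fin k) ℂ →ₐ[ℂ] B).toRingHom
      (y (Fin.last k)) (shearHom c f) = aeval y f := by
  have h1 : (Polynomial.eval₂RingHom
      (aeval (shear y c) : MvPolynomial (Fin k) ℂ →ₐ[ℂ] B).toRingHom
      (y (Fin.last k))).comp (shearHom c).toRingHom =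
        (aeval y : MvPolynomial (Fin (k + 1)) ℂ →ₐ[ℂ] B).toRingHom := by
    refine MvPolynomial.ringHom_ext (fun a => ?_) fun i => ?_
    · simp [shearHom, ← MvPolynomial.algebraMap_eq, Polynomial.algebraMap_apply]
    · refine Fin.lastCases ?_ (fun i => ?_) i
      · simp [shearHom]
      · simp [shearHom, shear]
  exact RingHom.congr_fun h1 f

/-- `y_k` is integral over the new coordinates -/
theorem isIntegralElem_shear {y : Fin (k + 1) → B} {c : Fin (k + 1) → ℂ}
    (hc : c (Fin.last k) = 1) {f : MvPolynomial (Fin (k + 1)) ℂ} (hf : aeval y f = 0)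
    (hT : eval c (homogeneousComponent f.totalDegree f) ≠ 0) :
    (aeval (shear y c) : MvPolynomial (Fin k) ℂ →ₐ[ℂ] B).toRingHom.IsIntegralElem
      (y (Fin.last k)) := by
  obtain ⟨h1, h2⟩ := shearHom_spec hc f
  set a := eval c (homogeneousComponent f.totalDegree f) with ha
  refine ⟨Polynomial.C (C a⁻¹) * shearHom c f, ?_, ?_⟩
  · refine Polynomial.monic_of_natDegree_le_of_coeff_eq_one f.totalDegree
      ((Polynomial.natDegree_C_mul_le _ _).trans h1) ?_
    rw [Polynomial.coeff_C_mul, h2, ← C_mul, inv_mul_cancel₀ hT, C_1]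
  · rw [Polynomial.eval₂_mul, eval_shearHom, hf, mul_zero]

/-- finiteness over the new coordinates -/
theorem finite_shear {y : Fin (k + 1) → B} {c : Fin (k + 1) → ℂ}
    (hy : (aeval y : MvPolynomial (Fin (k + 1)) ℂ →ₐ[ℂ] B).toRingHom.Finite)
    (hc : c (Fin.last k) = 1) {f : MvPolynomial (Fin (k + 1)) ℂ} (hf : aeval y f = 0)
    (hT : eval c (homogeneousComponent f.totalDegree f) ≠ 0) :
    (aeval (shear y c) : MvPolynomial (Fin k) ℂ →ₐ[ℂ] B).toRingHom.Finite := by
  have h1 := isIntegralElem_shear hc hf hT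
  let φ := (aeval (shear y c) : MvPolynomial (Fin k) ℂ →ₐ[ℂ] B)
  let alg : Algebra (MvPolynomial (Fin k) ℂ) B := φ.toRingHom.toAlgebra
  have htow : IsScalarTower ℂ (MvPolynomial (Fin k) ℂ) B :=
    IsScalarTower.of_algebraMap_eq fun a => (φ.commutes a).symm
  -- the integral closure
  let A := integralClosure (MvPolynomial (Fin k) ℂ) B
  have hy' : ∀ i, y i ∈ A := by
    intro i
    refine Fin.lastCases h1 (fun i => ?_) i
    have h2 : y i.castSucc = shear y c i + algebraMap ℂ B (c i.castSucc) * y (Fin.last k) := by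
      rw [shear]
      ring
    rw [h2]
    refine A.add_mem ?_ (A.mul_mem ?_ h1)
    · have h3 : shear y c i = algebraMap (MvPolynomial (Fin k) ℂ) B (X i) := by
        change _ = φ (X i)
        rw [aeval_X]
      rw [h3]
      exact A.algebraMap_mem _
    · rw [IsScalarTower.algebraMap_apply ℂ (MvPolynomial (Fin k) ℂ) B]
      exact A.algebraMap_mem _
  have h2 : φ.toRingHom.IsIntegral := by
    intro b
    obtain ⟨p, hp, hpb⟩ := hy.to_isIntegral b
    let ψ : MvPolynomial (Fin (k + 1)) ℂ →ₐ[ℂ] A := aeval fun i => (⟨y i, hy' i⟩ : A)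
    have h3 : IsIntegral A b := by
      refine ⟨p.map ψ.toRingHom, hp.map _, ?_⟩
      rw [Polynomial.eval₂_map]
      have h4 : (algebraMap A B).comp ψ.toRingHom =
          (aeval y : MvPolynomial (Fin (k + 1)) ℂ →ₐ[ℂ] B).toRingHom := by
        refine MvPolynomial.ringHom_ext (fun a => ?_) fun i => ?_
        · simp [ψ]
        · simp [ψ]
      rw [h4]
      exact hpb
    exact isIntegral_trans b h3
  refine h2.to_finite ?_
  have h3 : (aeval y : MvPolynomial (Fin (k + 1)) ℂ →ₐ[ℂ] B).toRingHom.FiniteType := hy.to_finiteType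
  have h4 : (algebraMap ℂ B).FiniteType := by
    have h5 : (algebraMap ℂ (MvPolynomial (Fin (k + 1)) ℂ)).FiniteType := by
      rw [RingHom.finiteType_algebraMap]
      infer_instance
    have h6 := h3.comp h5
    have h7 : (aeval y : MvPolynomial (Fin (k + 1)) ℂ →ₐ[ℂ] B).toRingHom.comp
        (algebraMap ℂ (MvPolynomial (Fin (k + 1)) ℂ)) = algebraMap ℂ B :=
      (aeval y : MvPolynomial (Fin (k + 1)) ℂ →ₐ[ℂ] B).comp_algebraMap
    rwa [h7] at h6
  exact RingHom.FiniteType.of_comp_finiteType (f := algebraMap ℂ (MvPolynomial (Fin k) ℂ)) (by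
    have h5 : φ.toRingHom.comp (algebraMap ℂ (MvPolynomial (Fin k) ℂ)) = algebraMap ℂ B :=
      φ.comp_algebraMap
    rw [h5]
    exact h4)

end shear

end Pool.Agent.Odp3
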